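import Pool.Agent.Helper77.SI.Main
import Pool.Agent.Helper23.Hyper.Bridge

/-!
# Hyperplane sections for real coefficients
-/

namespace Pool.Agent.Helper77.SI

open Pool.Agent.Helper23.Hyper (P Q R S cnt pows jac)

/-- The number of points `x ∈ {-2, -1, 0, 1, 2}^n` on the hyperplane `∑ a_i x_i = T`. -/
noncomputable def secR {n : ℕ} (a : Fin n → ℝ) (T : ℝ) : ℕ :=
  ((Fintype.piFinset (fun _ : Fin n => Finset.Icc (-2 : ℤ) 2)).filter
    (fun x => ∑ i, a i * (x i : ℝ) = T)).card

/-- The absolute values of the entries can be listed so that each one is larger than the sum of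
all later ones. -/
def Superincreasing {n : ℕ} (a : Fin n → ℝ) : Prop :=
  ∃ σ : Equiv.Perm (Fin n), ∀ i, ∑ j ∈ Finset.Ioi i, |a (σ j)| < |a (σ i)|

/-- The hyperplane `∑ a_i x_i = 0` meets `{0, ±1}^n` only in `0`. -/
def AdmissibleR {n : ℕ} (a : Fin n → ℝ) : Prop :=
  ∀ x ∈ Fintype.piFinset (fun _ : Fin n => Finset.Icc (-1 : ℤ) 1),
    ∑ i, a i * (x i : ℝ) = 0 → x = 0

theorem cntR_perm {l l' : List ℝ} (h : l.Perm l') : ∀ T, cntR l T = cntR l' T := by
  induction h with
  | nil => intro T; rfl
  | cons u _ ih => intro T; simp only [cntR, ih]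
  | swap u v l =>
    intro T
    simp only [cntR]
    ring_nf
  | trans _ _ ih1 ih2 => intro T; rw [ih1, ih2]

theorem cntR_append_le (l2 : List ℝ) (B : ℕ) (hB : ∀ T, cntR l2 T ≤ B) :
    ∀ (l1 : List ℝ) (T : ℝ), cntR (l1 ++ l2) T ≤ 5 ^ l1.length * B := by
  intro l1
  induction l1 with
  | nil => intro T; simpa using hB T
  | cons u l ih =>
    intro T
    simp only [List.cons_append, cntR, List.length_cons]
    have h1 := ih (T + 2 * u)
    have h2 := ih (T + u)
    have h3 := ih T
    have h4 := ih (T - u)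
    have h5 := ih (T - 2 * u)
    have h6 : 5 ^ (l.length + 1) * B = 5 * (5 ^ l.length * B) := by ring
    omega

theorem cntR_abs : ∀ (l : List ℝ) (T : ℝ), cntR (l.map (fun x => |x|)) T = cntR l T := by
  intro l
  induction l with
  | nil => intro T; rfl
  | cons u l ih =>
    intro T
    simp only [List.map_cons, cntR, ih]
    rcases le_or_gt 0 u with h | h
    · rw [abs_of_nonneg h]
    · rw [abs_of_neg h]
      rw [show T + 2 * -u = T - 2 * u by ring, show T + -u = T - u by ring,
        show T - -u = T + u by ring, show T - 2 * -u = T + 2 * u by ring]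
      ring

theorem secR_succ {n : ℕ} (a : Fin (n + 1) → ℝ) (T : ℝ) :
    secR a T = ∑ y ∈ Finset.Icc (-2 : ℤ) 2, secR (fun i => a i.succ) (T - (y : ℝ) * a 0) := by
  unfold secR
  rw [Finset.card_eq_sum_card_fiberwise (f := fun x => x 0) (t := Finset.Icc (-2 : ℤ) 2)]
  · apply Finset.sum_congr rfl
    intro y hy
    apply Finset.card_nbij' (i := fun x => Fin.tail x) (j := fun x => Fin.cons y x)
    · intro x hx
      simp only [Finset.coe_filter, Finset.mem_filter, Fintype.mem_piFinset,
        Set.mem_ofPred_eq] at hx ⊢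
      obtain ⟨⟨h1, h2⟩, h3⟩ := hx
      refine ⟨fun i => h1 i.succ, ?_⟩
      rw [Fin.sum_univ_succ, h3] at h2
      simp only [Fin.tail]
      linarith
    · intro x hx
      simp only [Finset.coe_filter, Finset.mem_filter, Fintype.mem_piFinset,
        Set.mem_ofPred_eq] at hx ⊢
      obtain ⟨h1, h2⟩ := hx
      refine ⟨⟨?_, ?_⟩, by simp⟩
      · intro i
        refine Fin.cases ?_ (fun i => ?_) i
        · simpa using hy
        · simpa using h1 i
      · rw [Fin.sum_univ_succ]
        simp only [Fin.cons_zero, Fin.cons_succ]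
        rw [h2]; ring
    · intro x hx
      simp only [Finset.coe_filter, Finset.mem_filter, Fintype.mem_piFinset,
        Set.mem_ofPred_eq] at hx
      obtain ⟨_, h3⟩ := hx
      subst h3
      exact Fin.cons_self_tail x
    · intro x hx
      exact Fin.tail_cons _ _
  · intro x hx
    simp only [Finset.coe_filter, Fintype.mem_piFinset, Set.mem_ofPred_eq] at hx
    exact Finset.mem_coe.mpr (hx.1 0)

theorem secR_eq : ∀ {n : ℕ} (a : Fin n → ℝ) (T : ℝ), secR a T = cntR (List.ofFn a) T := by
  intro n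
  induction n with
  | zero =>
    intro a T
    unfold secR
    simp only [Finset.univ_eq_empty, Finset.sum_empty, List.ofFn_zero, cntR]
    by_cases h : T = 0
    · subst h; simp
    · rw [if_neg h]
      rw [Finset.card_eq_zero, Finset.filter_eq_empty_iff]
      intro x _ h'
      exact h h'.symm
  | succ n ih =>
    intro a T
    rw [secR_succ, List.ofFn_succ]
    simp only [cntR, ← ih]
    rw [show Finset.Icc (-2 : ℤ) 2 = {-2, -1, 0, 1, 2} from by decide]
    rw [Finset.sum_insert (by decide), Finset.sum_insert (by decide), Finset.sum_insert (by decide),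
      Finset.sum_insert (by decide), Finset.sum_singleton]
    push_cast
    rw [show T - -2 * a 0 = T + 2 * a 0 by ring, show T - -1 * a 0 = T + a 0 by ring,
      show T - 0 * a 0 = T by ring, show T - 1 * a 0 = T - a 0 by ring]
    ring

/-- The bound for one target. -/
theorem cntR_le {l : List ℝ} (h0 : l ≠ []) (h : SI l) (T : ℝ) : cntR l T ≤ Q l.length := by
  cases l with
  | nil => exact absurd rfl h0
  | cons α l =>
    obtain ⟨h1, h2⟩ := h
    have h3 := main l 0 (fun _ => 1) Wt.one h2 (fun z => T - (z : ℝ) * α) (by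
      intro z
      push_cast
      linarith) {-2, -1, 0, 1, 2}
    rw [Finset.sum_insert (by decide), Finset.sum_insert (by decide), Finset.sum_insert (by decide),
      Finset.sum_insert (by decide), Finset.sum_singleton] at h3
    push_cast at h3
    rw [show T - -2 * α = T + 2 * α by ring, show T - -1 * α = T + α by ring,
      show T - 0 * α = T by ring, show T - 1 * α = T - α by ring] at h3
    have h4 : (cntR (α :: l) T : ℝ) ≤ Q (0 + 1 + l.length) := by
      simp only [cntR]
      push_cast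
      linarith
    have h5 : cntR (α :: l) T ≤ Q (0 + 1 + l.length) := by exact_mod_cast h4
    rw [List.length_cons]
    rwa [show 0 + 1 + l.length = l.length + 1 by ring] at h5

theorem SI_ofFn : ∀ {n : ℕ} (b : Fin n → ℝ), (∀ i, ∑ j ∈ Finset.Ioi i, b j < b i) →
    SI (List.ofFn b) := by
  intro n
  induction n with
  | zero => intro b _; rw [List.ofFn_zero]; trivial
  | succ n ih =>
    intro b h
    rw [List.ofFn_succ]
    refine ⟨?_, ih _ ?_⟩
    · have h0 := h 0
      rw [Fin.Ioi_zero_eq_map, Finset.sum_map] at h0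
      rw [List.sum_ofFn]
      exact h0
    · intro i
      have h1 := h i.succ
      rw [Fin.Ioi_succ, Finset.sum_map] at h1
      exact h1

theorem Superincreasing.cntR_le {n : ℕ} (hn : 1 ≤ n) {a : Fin n → ℝ} (h : Superincreasing a)
    (T : ℝ) : cntR (List.ofFn a) T ≤ Q n := by
  obtain ⟨σ, hσ⟩ := h
  have h1 : SI (List.ofFn (fun i => |a (σ i)|)) := SI_ofFn _ hσ
  have h2 : cntR (List.ofFn a) T = cntR (List.ofFn (fun i => |a (σ i)|)) T := by
    rw [← cntR_abs, List.map_ofFn]
    exact cntR_perm (Equiv.Perm.ofFn_comp_perm σ _).symm T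
  rw [h2]
  have h3 := SI.cntR_le (l := List.ofFn (fun i => |a (σ i)|)) (by
    intro h0
    have h4 := congrArg List.length h0
    rw [List.length_ofFn, List.length_nil] at h4
    omega) h1 T
  rwa [List.length_ofFn] at h3

/-- Splitting off the sub-vector indexed by an embedding. -/
theorem ofFn_permR {n k : ℕ} (a : Fin n → ℝ) (e : Fin k ↪ Fin n) :
    ∃ r : List ℝ, r.length = n - k ∧ (List.ofFn a).Perm (r ++ List.ofFn (a ∘ e)) := by
  classical
  refine ⟨((Finset.univ \ Finset.univ.map e).toList).map a, ?_, ?_⟩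
  · rw [List.length_map, Finset.length_toList, Finset.card_sdiff_of_subset (Finset.subset_univ _)]
    simp
  · rw [← Multiset.coe_eq_coe, ← Multiset.coe_add, ← Multiset.map_coe, Finset.coe_toList]
    have h1 : ∀ {m : ℕ} (f : Fin m → ℝ),
        ((List.ofFn f : List ℝ) : Multiset ℝ) = (Finset.univ : Finset (Fin m)).val.map f := by
      intro m f
      rw [List.ofFn_eq_map, ← Multiset.map_coe]
      rfl
    rw [h1, h1]
    have h2 : (Finset.univ : Finset (Fin k)).val.map (a ∘ e) =
        (Finset.univ.map e).val.map a := by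
      rw [Finset.map_val, Multiset.map_map]
    rw [h2, ← Multiset.map_add]
    congr 1
    rw [Finset.sdiff_val]
    exact (tsub_add_cancel_of_le (Finset.val_le_iff.mpr (Finset.subset_univ _))).symm

theorem secR_le {n k : ℕ} (a : Fin n → ℝ) (e : Fin k ↪ Fin n) (T : ℝ) (hk : 1 ≤ k)
    (h : Superincreasing (a ∘ e)) : secR a T ≤ 5 ^ (n - k) * Q k := by
  obtain ⟨r, hr, hp⟩ := ofFn_permR a e
  rw [secR_eq, cntR_perm hp, ← hr]
  exact cntR_append_le _ _ (fun T => h.cntR_le hk T) _ _

theorem Superincreasing.admissible {n : ℕ} {a : Fin n → ℝ} (h : Superincreasing a) :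
    AdmissibleR a := by
  obtain ⟨σ, hσ⟩ := h
  intro x hx hs
  by_contra hne
  have hne' : ∃ i, x (σ i) ≠ 0 := by
    by_contra hc
    push Not at hc
    apply hne
    funext j
    have := hc (σ.symm j)
    simpa using this
  set F := Finset.univ.filter (fun i => x (σ i) ≠ 0) with hF
  have hFn : F.Nonempty := by
    obtain ⟨i, hi⟩ := hne'
    exact ⟨i, by simp [hF, hi]⟩
  set i := F.min' hFn with hi
  have hmem : ∀ j ∈ F, x (σ j) ≠ 0 := by
    intro j hj
    rw [hF, Finset.mem_filter] at hj
    exact hj.2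
  have hiF : x (σ i) ≠ 0 := hmem i (F.min'_mem hFn)
  have hmin : ∀ j, j < i → x (σ j) = 0 := by
    intro j hj
    by_contra hc
    have h1 : j ∈ F := by rw [hF, Finset.mem_filter]; exact ⟨Finset.mem_univ _, hc⟩
    have := F.min'_le j h1
    exact absurd hj (not_lt.mpr this)
  have hs' : ∑ j, a (σ j) * (x (σ j) : ℝ) = 0 := by
    rw [← hs]
    exact Equiv.sum_comp σ (fun i => a i * (x i : ℝ))
  have habs : ∀ j, |(x (σ j) : ℝ)| ≤ 1 := by
    intro j
    have h1 := Fintype.mem_piFinset.mp hx (σ j)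
    rw [Finset.mem_Icc] at h1
    rw [abs_le]
    constructor
    · exact_mod_cast h1.1
    · exact_mod_cast h1.2
  have h1 : (1 : ℝ) ≤ |(x (σ i) : ℝ)| := by
    have h2 := Int.one_le_abs hiF
    have h3 : ((1 : ℤ) : ℝ) ≤ ((|x (σ i)| : ℤ) : ℝ) := by exact_mod_cast h2
    rwa [Int.cast_abs, Int.cast_one] at h3
  have hsplit : ∑ j, a (σ j) * (x (σ j) : ℝ) =
      a (σ i) * (x (σ i) : ℝ) + ∑ j ∈ Finset.Ioi i, a (σ j) * (x (σ j) : ℝ) := by
    rw [← Finset.sum_erase_add _ _ (Finset.mem_univ i), add_comm]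
    congr 1
    symm
    apply Finset.sum_subset
    · intro j hj
      rw [Finset.mem_Ioi] at hj
      exact Finset.mem_erase.mpr ⟨ne_of_gt hj, Finset.mem_univ _⟩
    · intro j hj hj'
      rw [Finset.mem_Ioi, not_lt] at hj'
      have h3 : j < i := lt_of_le_of_ne hj' (Finset.mem_erase.mp hj).1
      rw [hmin j h3]
      simp
  rw [hsplit] at hs'
  have h4 : |a (σ i) * (x (σ i) : ℝ)| = |∑ j ∈ Finset.Ioi i, a (σ j) * (x (σ j) : ℝ)| := by
    rw [show a (σ i) * (x (σ i) : ℝ) = -∑ j ∈ Finset.Ioi i, a (σ j) * (x (σ j) : ℝ) by linarith,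
      abs_neg]
  have h5 : |∑ j ∈ Finset.Ioi i, a (σ j) * (x (σ j) : ℝ)| ≤ ∑ j ∈ Finset.Ioi i, |a (σ j)| := by
    refine (Finset.abs_sum_le_sum_abs _ _).trans (Finset.sum_le_sum fun j _ => ?_)
    rw [abs_mul]
    exact mul_le_of_le_one_right (abs_nonneg _) (habs j)
  have h6 : |a (σ i)| ≤ |a (σ i) * (x (σ i) : ℝ)| := by
    rw [abs_mul]
    exact le_mul_of_one_le_right (abs_nonneg _) h1
  have h7 := hσ i
  linarith

end Pool.Agent.Helper77.SI
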