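import Pool.Agent.Helper77.SI.Lower

/-!
# A class of coefficient vectors containing triangular and superincreasing ones
-/

namespace Pool.Agent.Helper77.SI

open Pool.Agent.Helper23.Hyper (P Q R S cnt pows jac Triangular)

/-- `∑ x_i u_i` for lists `u` of reals and `x` of integers of the same length. -/
noncomputable def dot : List ℝ → List ℤ → ℝ
  | u :: l, x :: y => (x : ℝ) * u + dot l y
  | _, _ => 0

/-- `x` is a list of `n` integers of absolute value at most `b`. -/
def Digits (b : ℤ) (n : ℕ) (x : List ℤ) : Prop := x.length = n ∧ ∀ y ∈ x, |y| ≤ b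

/-- The class of layered vectors. -/
inductive Layered : List ℝ → Prop
  | super (l : List ℝ) : SI (l.map (fun x => |x|)) → Layered l
  | triangular {n : ℕ} (a : Fin n → ℤ) : Triangular a → Layered (List.ofFn (fun i => (a i : ℝ)))
  | glue (u u' v : List ℝ) : u.length = u'.length → Layered u' → Layered v →
      (∀ y z, Digits 4 u.length y → Digits 4 v.length z → dot u y = dot v z → dot u' y = 0) →
      Layered (u ++ v)
  | two (w : ℝ) (v : List ℝ) : Layered v →
      (∀ (T : ℝ) (x₁ x₂ x₃ : ℤ), -2 ≤ x₁ → x₁ < x₂ → x₂ < x₃ → x₃ ≤ 2 →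
        (∃ z, Digits 2 v.length z ∧ T - x₁ * w = dot v z) →
        (∃ z, Digits 2 v.length z ∧ T - x₂ * w = dot v z) →
        ¬ ∃ z, Digits 2 v.length z ∧ T - x₃ * w = dot v z) → Layered (w :: v)
  | perm (l l' : List ℝ) : l.Perm l' → Layered l → Layered l'

/-! ### Sums over digit lists -/

/-- The sum of `f x` over all `x ∈ {-2, …, 2}^k`. -/
def sumD : ℕ → (List ℤ → ℕ) → ℕ
  | 0, f => f []
  | k + 1, f => sumD k (fun x => f (-2 :: x)) + sumD k (fun x => f (-1 :: x)) +
      sumD k (fun x => f (0 :: x)) + sumD k (fun x => f (1 :: x)) + sumD k (fun x => f (2 :: x))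

theorem digits_cons {b : ℤ} {k : ℕ} {y : ℤ} {x : List ℤ} (hy : |y| ≤ b) (hx : Digits b k x) :
    Digits b (k + 1) (y :: x) := by
  refine ⟨by rw [List.length_cons, hx.1], ?_⟩
  intro t ht
  rw [List.mem_cons] at ht
  rcases ht with rfl | ht
  · exact hy
  · exact hx.2 t ht

theorem sumD_le : ∀ (k : ℕ) (f g : List ℤ → ℕ), (∀ x, Digits 2 k x → f x ≤ g x) →
    sumD k f ≤ sumD k g := by
  intro k
  induction k with
  | zero =>
    intro f g h
    exact h [] ⟨rfl, by simp⟩
  | succ k ih =>
    intro f g h
    simp only [sumD]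
    have h1 := ih (fun x => f (-2 :: x)) (fun x => g (-2 :: x)) (fun x hx =>
      h _ (digits_cons (by decide) hx))
    have h2 := ih (fun x => f (-1 :: x)) (fun x => g (-1 :: x)) (fun x hx =>
      h _ (digits_cons (by decide) hx))
    have h3 := ih (fun x => f (0 :: x)) (fun x => g (0 :: x)) (fun x hx =>
      h _ (digits_cons (by decide) hx))
    have h4 := ih (fun x => f (1 :: x)) (fun x => g (1 :: x)) (fun x hx =>
      h _ (digits_cons (by decide) hx))
    have h5 := ih (fun x => f (2 :: x)) (fun x => g (2 :: x)) (fun x hx =>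
      h _ (digits_cons (by decide) hx))
    omega

theorem sumD_mul : ∀ (k : ℕ) (f : List ℤ → ℕ) (B : ℕ), sumD k (fun x => f x * B) = sumD k f * B := by
  intro k
  induction k with
  | zero => intro f B; rfl
  | succ k ih =>
    intro f B
    simp only [sumD, ih]
    ring

theorem cntR_append : ∀ (u v : List ℝ) (T : ℝ),
    cntR (u ++ v) T = sumD u.length (fun x => cntR v (T - dot u x)) := by
  intro u
  induction u with
  | nil => intro v T; simp [sumD, dot]
  | cons a u ih =>
    intro v T
    simp only [List.cons_append, cntR, List.length_cons, sumD, dot, ih]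
    push_cast
    have e1 : ∀ x, T + 2 * a - dot u x = T - (-2 * a + dot u x) := fun x => by ring
    have e2 : ∀ x, T + a - dot u x = T - (-1 * a + dot u x) := fun x => by ring
    have e3 : ∀ x, T - dot u x = T - (0 * a + dot u x) := fun x => by ring
    have e4 : ∀ x, T - a - dot u x = T - (1 * a + dot u x) := fun x => by ring
    have e5 : ∀ x, T - 2 * a - dot u x = T - (2 * a + dot u x) := fun x => by ring
    simp only [e1, e2, e4, e5]
    simp only [e3]

theorem cntR_eq_sumD (u : List ℝ) (T : ℝ) :
    cntR u T = sumD u.length (fun x => if dot u x = T then 1 else 0) := by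
  have h := cntR_append u [] T
  rw [List.append_nil] at h
  rw [h]
  congr 1
  funext x
  simp only [cntR]
  by_cases hx : dot u x = T
  · rw [if_pos hx, if_pos (by linarith)]
  · rw [if_neg hx, if_neg (fun h0 => hx (by linarith))]

theorem exists_rep : ∀ (v : List ℝ) (T : ℝ), cntR v T ≠ 0 →
    ∃ z, Digits 2 v.length z ∧ T = dot v z := by
  intro v
  induction v with
  | nil =>
    intro T h
    refine ⟨[], ⟨rfl, by simp⟩, ?_⟩
    simp only [cntR] at h
    by_contra h0
    rw [if_neg] at h
    · exact h rfl
    · intro h1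
      apply h0
      rw [h1]
      rfl
  | cons a v ih =>
    intro T h
    simp only [cntR] at h
    have key : ∀ y : ℤ, |y| ≤ 2 → cntR v (T - y * a) ≠ 0 →
        ∃ z, Digits 2 (a :: v).length z ∧ T = dot (a :: v) z := by
      intro y hy h0
      obtain ⟨z, hz, hz'⟩ := ih _ h0
      refine ⟨y :: z, ?_, ?_⟩
      · rw [List.length_cons]
        exact digits_cons hy hz
      · simp only [dot]
        linarith
    by_cases h1 : cntR v (T - ((-2 : ℤ) : ℝ) * a) ≠ 0
    · exact key (-2) (by decide) h1
    by_cases h2 : cntR v (T - ((-1 : ℤ) : ℝ) * a) ≠ 0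
    · exact key (-1) (by decide) h2
    by_cases h3 : cntR v (T - ((0 : ℤ) : ℝ) * a) ≠ 0
    · exact key 0 (by decide) h3
    by_cases h4 : cntR v (T - ((1 : ℤ) : ℝ) * a) ≠ 0
    · exact key 1 (by decide) h4
    by_cases h5 : cntR v (T - ((2 : ℤ) : ℝ) * a) ≠ 0
    · exact key 2 (by decide) h5
    exfalso
    push_cast at h1 h2 h3 h4 h5
    rw [not_not] at h1 h2 h3 h4 h5
    rw [show T - -2 * a = T + 2 * a by ring] at h1
    rw [show T - -1 * a = T + a by ring] at h2
    rw [show T - 0 * a = T by ring] at h3
    rw [show T - 1 * a = T - a by ring] at h4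
    omega

/-! ### Linear algebra of `dot` -/

theorem dot_sub : ∀ (u : List ℝ) (x y : List ℤ), x.length = u.length → y.length = u.length →
    dot u (List.zipWith (fun a b => a - b) x y) = dot u x - dot u y := by
  intro u
  induction u with
  | nil =>
    intro x y hx hy
    cases x with
    | nil => simp [dot]
    | cons a x => simp at hx
  | cons w u ih =>
    intro x y hx hy
    cases x with
    | nil => simp at hx
    | cons a x =>
      cases y with
      | nil => simp at hy
      | cons b y =>
        simp only [List.zipWith_cons_cons, dot]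
        rw [ih x y (by simpa using hx) (by simpa using hy)]
        push_cast
        ring

theorem digits_sub {n : ℕ} {x y : List ℤ} (hx : Digits 2 n x) (hy : Digits 2 n y) :
    Digits 4 n (List.zipWith (fun a b => a - b) x y) := by
  refine ⟨by rw [List.length_zipWith, hx.1, hy.1, min_self], ?_⟩
  intro t ht
  obtain ⟨i, hi, rfl⟩ := List.mem_iff_getElem.mp ht
  rw [List.getElem_zipWith]
  rw [List.length_zipWith] at hi
  have h1 := abs_le.mp (hx.2 _ (List.getElem_mem (l := x) (n := i) (by omega)))
  have h2 := abs_le.mp (hy.2 _ (List.getElem_mem (l := y) (n := i) (by omega)))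
  rw [abs_le]
  omega

theorem dot_append : ∀ (u v : List ℝ) (x y : List ℤ), x.length = u.length →
    dot (u ++ v) (x ++ y) = dot u x + dot v y := by
  intro u
  induction u with
  | nil =>
    intro v x y hx
    cases x with
    | nil => simp [dot]
    | cons a x => simp at hx
  | cons w u ih =>
    intro v x y hx
    cases x with
    | nil => simp at hx
    | cons a x =>
      simp only [List.cons_append, dot]
      rw [ih v x y (by simpa using hx)]
      ring

theorem dot_perm {l l' : List ℝ} (h : l.Perm l') : ∀ x : List ℤ, x.length = l.length →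
    ∃ x' : List ℤ, x'.Perm x ∧ dot l' x' = dot l x := by
  induction h with
  | nil => intro x _; exact ⟨x, List.Perm.refl _, rfl⟩
  | cons a _ ih =>
    intro x hx
    cases x with
    | nil => simp at hx
    | cons b x =>
      obtain ⟨x', h1, h2⟩ := ih x (by simpa using hx)
      exact ⟨b :: x', h1.cons b, by simp only [dot, h2]⟩
  | swap a b l =>
    intro x hx
    match x, hx with
    | c :: d :: x, _ =>
      refine ⟨d :: c :: x, List.Perm.swap _ _ _, ?_⟩
      simp only [dot]
      ring
  | trans _ _ ih1 ih2 =>
    intro x hx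
    obtain ⟨x', h1, h2⟩ := ih1 x hx
    obtain ⟨x'', h3, h4⟩ := ih2 x' (by
      rename_i hp _
      rw [h1.length_eq, hx, hp.length_eq])
    exact ⟨x'', h3.trans h1, h4.trans h2⟩

end Pool.Agent.Helper77.SI
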