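import Pool.Agent.Helper77.SI.Layer

/-!
# Layered vectors: the bound and admissibility
-/

namespace Pool.Agent.Helper77.SI

open Pool.Agent.Helper23.Hyper (P Q R S P_succ Q_succ R_succ S_succ ineqs ineqs3 cnt Triangular)

/-- The bound, with value `1` for the empty vector. -/
def D (n : ℕ) : ℕ := max 1 (Q n)

theorem Q_pos (n : ℕ) : 1 ≤ P (n + 1) ∧ 1 ≤ Q (n + 1) := by
  induction n with
  | zero => decide
  | succ n ih => rw [P_succ (n + 1), Q_succ (n + 1)]; omega

theorem D_succ (n : ℕ) : D (n + 1) = Q (n + 1) := by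
  have := (Q_pos n).2
  unfold D
  omega

theorem mul_vec (m : ℕ) : ∀ k : ℕ, Q (m + 1) * P (k + 1) ≤ P (m + 1 + (k + 1)) ∧
    Q (m + 1) * Q (k + 1) ≤ Q (m + 1 + (k + 1)) ∧ Q (m + 1) * R (k + 1) ≤ R (m + 1 + (k + 1)) ∧
    Q (m + 1) * S (k + 1) ≤ S (m + 1 + (k + 1)) := by
  intro k
  induction k with
  | zero =>
    have h1 : P (0 + 1) = 1 ∧ Q (0 + 1) = 1 ∧ R (0 + 1) = 1 ∧ S (0 + 1) = 1 := by decide
    obtain ⟨e1, e2, e3, e4⟩ := h1
    rw [e1, e2, e3, e4, show m + 1 + (0 + 1) = m + 1 + 1 by ring, P_succ (m + 1), Q_succ (m + 1),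
      R_succ (m + 1), S_succ (m + 1)]
    have h2 := ineqs3 m
    omega
  | succ k ih =>
    obtain ⟨h1, h2, h3, h4⟩ := ih
    rw [show m + 1 + (k + 1 + 1) = m + 1 + (k + 1) + 1 by ring, P_succ (k + 1), Q_succ (k + 1),
      R_succ (k + 1), S_succ (k + 1), P_succ (m + 1 + (k + 1)), Q_succ (m + 1 + (k + 1)),
      R_succ (m + 1 + (k + 1)), S_succ (m + 1 + (k + 1))]
    simp only [mul_add]
    omega

theorem D_mul (m k : ℕ) : D m * D k ≤ D (m + k) := by
  have h0 : D 0 = 1 := by decide
  rcases m with _ | m
  · rw [h0, one_mul, zero_add]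
  · rcases k with _ | k
    · rw [h0, mul_one, add_zero]
    · rw [show m + 1 + (k + 1) = (m + 1 + k) + 1 by ring, D_succ, D_succ, D_succ]
      exact (mul_vec m k).2.1

theorem D_two (m : ℕ) : 2 * D (m + 1) ≤ D (m + 1 + 1) := by
  rw [D_succ, D_succ, Q_succ (m + 1)]
  have h2 := ineqs3 m
  omega

theorem cntR_nil_le (T : ℝ) : cntR [] T ≤ 1 := by
  simp only [cntR]
  split_ifs <;> omega

theorem SI.le_D {l : List ℝ} (h : SI (l.map (fun x => |x|))) (T : ℝ) : cntR l T ≤ D l.length := by
  rw [← cntR_abs]
  cases l with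
  | nil => exact (cntR_nil_le T).trans (by decide)
  | cons a l =>
    have h1 := SI.cntR_le (l := (a :: l).map (fun x => |x|)) (by simp) h T
    rw [List.length_map, List.length_cons] at h1
    rw [List.length_cons, D_succ]
    exact h1

theorem cntR_cast_ne : ∀ (l : List ℤ) (T : ℝ), cntR (l.map (fun x : ℤ => (x : ℝ))) T ≠ 0 →
    ∃ t : ℤ, T = t := by
  intro l T h
  obtain ⟨z, -, hz⟩ := exists_rep _ _ h
  rw [hz]
  clear hz h
  induction l generalizing z with
  | nil => exact ⟨0, by simp [dot]⟩
  | cons a l ih =>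
    cases z with
    | nil => exact ⟨0, by simp [dot]⟩
    | cons b z =>
      obtain ⟨t, ht⟩ := ih z
      refine ⟨b * a + t, ?_⟩
      simp only [List.map_cons, dot, ht]
      push_cast
      rfl

theorem triangular_le_D {n : ℕ} {a : Fin n → ℤ} (h : Triangular a) (T : ℝ) :
    cntR (List.ofFn (fun i => (a i : ℝ))) T ≤ D n := by
  have he : List.ofFn (fun i => (a i : ℝ)) = (List.ofFn a).map (fun x : ℤ => (x : ℝ)) := by
    rw [List.map_ofFn]
    rfl
  rw [he]
  by_cases h0 : cntR ((List.ofFn a).map (fun x : ℤ => (x : ℝ))) T = 0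
  · rw [h0]; exact Nat.zero_le _
  · obtain ⟨t, rfl⟩ := cntR_cast_ne _ _ h0
    rw [cntR_cast]
    rcases n with _ | n
    · have h1 : cnt (List.ofFn a) t ≤ 1 := by
        rw [List.ofFn_zero]
        simp only [cnt]
        split_ifs <;> omega
      exact h1.trans (by decide)
    · rw [D_succ]
      exact Pool.Agent.Helper23.Hyper.cnt_le_triangular (by omega) h t

theorem glue_le {u u' v : List ℝ} (hl : u.length = u'.length) (B : ℕ) (hB : ∀ T, cntR v T ≤ B)
    (h : ∀ y z, Digits 4 u.length y → Digits 4 v.length z → dot u y = dot v z → dot u' y = 0)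
    (T : ℝ) : ∃ T', cntR (u ++ v) T ≤ cntR u' T' * B := by
  rw [cntR_append]
  by_cases hex : ∃ x₀, Digits 2 u.length x₀ ∧ cntR v (T - dot u x₀) ≠ 0
  · obtain ⟨x₀, hx₀, hne⟩ := hex
    obtain ⟨z₀, hz₀, hz₀'⟩ := exists_rep _ _ hne
    refine ⟨dot u' x₀, ?_⟩
    rw [cntR_eq_sumD, ← hl, ← sumD_mul]
    apply sumD_le
    intro x hx
    by_cases hx0 : cntR v (T - dot u x) = 0
    · rw [hx0]; exact Nat.zero_le _
    · obtain ⟨z, hz, hz'⟩ := exists_rep _ _ hx0
      have h1 := h _ _ (digits_sub hx₀ hx) (digits_sub hz hz₀) (by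
        rw [dot_sub u x₀ x hx₀.1 hx.1, dot_sub v z z₀ hz.1 hz₀.1]
        linarith)
      rw [dot_sub u' x₀ x (hx₀.1.trans hl) (hx.1.trans hl)] at h1
      rw [if_pos (by linarith), one_mul]
      exact hB _
  · refine ⟨0, ?_⟩
    have h1 : sumD u.length (fun x => cntR v (T - dot u x)) ≤ sumD u.length (fun _ => 0 * 0) := by
      apply sumD_le
      intro x hx
      by_contra h0
      apply hex
      refine ⟨x, hx, ?_⟩
      intro h2
      rw [h2] at h0
      exact h0 (Nat.zero_le _)
    rw [sumD_mul u.length (fun _ => 0) 0, mul_zero] at h1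
    exact h1.trans (Nat.zero_le _)

theorem two_count (f : ℤ → ℕ) (B : ℕ) (hB : ∀ x, f x ≤ B)
    (h : ∀ x₁ x₂ x₃ : ℤ, -2 ≤ x₁ → x₁ < x₂ → x₂ < x₃ → x₃ ≤ 2 → f x₁ ≠ 0 → f x₂ ≠ 0 → f x₃ = 0) :
    f (-2) + f (-1) + f 0 + f 1 + f 2 ≤ 2 * B := by
  have b1 := hB (-2)
  have b2 := hB (-1)
  have b3 := hB 0
  have b4 := hB 1
  have b5 := hB 2
  have h123 := h (-2) (-1) 0 (by decide) (by decide) (by decide) (by decide)
  have h124 := h (-2) (-1) 1 (by decide) (by decide) (by decide) (by decide)
  have h125 := h (-2) (-1) 2 (by decide) (by decide) (by decide) (by decide)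
  have h134 := h (-2) 0 1 (by decide) (by decide) (by decide) (by decide)
  have h135 := h (-2) 0 2 (by decide) (by decide) (by decide) (by decide)
  have h145 := h (-2) 1 2 (by decide) (by decide) (by decide) (by decide)
  have h234 := h (-1) 0 1 (by decide) (by decide) (by decide) (by decide)
  have h235 := h (-1) 0 2 (by decide) (by decide) (by decide) (by decide)
  have h245 := h (-1) 1 2 (by decide) (by decide) (by decide) (by decide)
  have h345 := h 0 1 2 (by decide) (by decide) (by decide) (by decide)
  by_cases e1 : f (-2) = 0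
  · by_cases e2 : f (-1) = 0
    · by_cases e3 : f 0 = 0
      · omega
      · by_cases e4 : f 1 = 0
        · omega
        · have := h345 e3 e4; omega
    · by_cases e3 : f 0 = 0
      · by_cases e4 : f 1 = 0
        · omega
        · have := h245 e2 e4; omega
      · have := h234 e2 e3
        have := h235 e2 e3
        omega
  · by_cases e2 : f (-1) = 0
    · by_cases e3 : f 0 = 0
      · by_cases e4 : f 1 = 0
        · omega
        · have := h145 e1 e4; omega
      · have := h134 e1 e3
        have := h135 e1 e3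
        omega
    · have := h123 e1 e2
      have := h124 e1 e2
      have := h125 e1 e2
      omega

/-- The bound for layered vectors. -/
theorem Layered.le_D {l : List ℝ} (h : Layered l) : ∀ T, cntR l T ≤ D l.length := by
  induction h with
  | super l h => exact fun T => SI.le_D h T
  | triangular a h =>
    intro T
    rw [List.length_ofFn]
    exact triangular_le_D h T
  | glue u u' v hl _ _ h ih1 ih2 =>
    intro T
    obtain ⟨T', hT'⟩ := glue_le hl (D v.length) ih2 h T
    refine hT'.trans ?_
    refine (Nat.mul_le_mul_right _ (ih1 T')).trans ?_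
    rw [List.length_append, hl]
    exact D_mul _ _
  | two w v _ h ih =>
    intro T
    have hrep : ∀ x : ℤ, cntR v (T - x * w) ≠ 0 → ∃ z, Digits 2 v.length z ∧ T - x * w = dot v z :=
      fun x hx => exists_rep _ _ hx
    have h2 : cntR (w :: v) T = cntR v (T - ((-2 : ℤ) : ℝ) * w) + cntR v (T - ((-1 : ℤ) : ℝ) * w) +
        cntR v (T - ((0 : ℤ) : ℝ) * w) + cntR v (T - ((1 : ℤ) : ℝ) * w) +
        cntR v (T - ((2 : ℤ) : ℝ) * w) := by
      simp only [cntR]
      push_cast
      rw [show T - -2 * w = T + 2 * w by ring, show T - -1 * w = T + w by ring,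
        show T - 0 * w = T by ring, show T - 1 * w = T - w by ring]
    rcases v with _ | ⟨b, v⟩
    · -- the empty list
      have hw : w ≠ 0 := by
        intro hw
        have hz : ∀ x : ℤ, ∃ z, Digits 2 ([] : List ℝ).length z ∧ (0 : ℝ) - x * w = dot [] z := by
          intro x
          refine ⟨[], ⟨rfl, by simp⟩, ?_⟩
          rw [hw]
          simp [dot]
        exact h 0 (-2) (-1) 0 (by decide) (by decide) (by decide) (by decide) (hz _) (hz _) (hz _)
      rw [List.length_cons, List.length_nil, zero_add]
      have h3 := SI.le_D (l := [w]) (by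
        simp only [List.map_cons, List.map_nil, SI, List.sum_nil, and_true]
        exact abs_pos.mpr hw) T
      exact h3
    · rw [h2, List.length_cons, List.length_cons]
      refine le_trans ?_ (D_two v.length)
      have h3 := two_count (fun x => cntR (b :: v) (T - (x : ℝ) * w)) (D (v.length + 1)) (by
        intro x
        exact ih _) (by
        intro x₁ x₂ x₃ a1 a2 a3 a4 n1 n2
        by_contra n3
        exact h T x₁ x₂ x₃ a1 a2 a3 a4 (hrep _ n1) (hrep _ n2) (hrep _ n3))
      exact h3
  | perm l l' hp _ ih =>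
    intro T
    rw [← cntR_perm hp, ← hp.length_eq]
    exact ih T

/-! ### Admissibility -/

/-- Only the trivial relation with digits `-1, 0, 1`. -/
def Adm (l : List ℝ) : Prop := ∀ x, Digits 1 l.length x → dot l x = 0 → ∀ y ∈ x, y = 0

theorem abs_dot_le : ∀ (l : List ℝ) (x : List ℤ), (∀ y ∈ x, |y| ≤ 1) →
    |dot l x| ≤ (l.map (fun x => |x|)).sum := by
  intro l
  induction l with
  | nil => intro x _; simp [dot]
  | cons a l ih =>
    intro x hx
    cases x with
    | nil =>
      simp only [dot, abs_zero]
      apply List.sum_nonneg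
      intro y hy
      obtain ⟨z, _, rfl⟩ := List.mem_map.mp hy
      exact abs_nonneg z
    | cons b x =>
      simp only [dot, List.map_cons, List.sum_cons]
      have h1 := ih x (fun y hy => hx y (by simp [hy]))
      have h2 : |(b : ℝ)| ≤ 1 := by exact_mod_cast hx b (by simp)
      have h3 : |(b : ℝ) * a| ≤ |a| := by
        rw [abs_mul]
        exact mul_le_of_le_one_left (abs_nonneg a) h2
      exact (abs_add_le _ _).trans (add_le_add h3 h1)

theorem SI.adm : ∀ {l : List ℝ}, SI (l.map (fun x => |x|)) → Adm l := by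
  intro l
  induction l with
  | nil =>
    intro _ x hx _ y hy
    have : x = [] := by simpa using hx.1
    rw [this] at hy
    simp at hy
  | cons a l ih =>
    intro h x hx hs
    obtain ⟨h1, h2⟩ := h
    cases x with
    | nil => intro y hy; simp at hy
    | cons b x =>
      have hx' : Digits 1 l.length x := ⟨by simpa using hx.1, fun y hy => hx.2 y (by simp [hy])⟩
      simp only [dot] at hs
      have h3 := abs_dot_le l x hx'.2
      have hb : b = 0 := by
        by_contra hb
        have h4 : (1 : ℝ) ≤ |(b : ℝ)| := by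
          have h5 := Int.one_le_abs hb
          exact_mod_cast h5
        have h6 : |(b : ℝ) * a| = |dot l x| := by
          rw [show (b : ℝ) * a = -dot l x by linarith, abs_neg]
        rw [abs_mul] at h6
        have h7 : |a| ≤ |(b : ℝ)| * |a| := le_mul_of_one_le_left (abs_nonneg a) h4
        linarith
      rw [hb] at hs
      intro y hy
      rw [List.mem_cons] at hy
      rcases hy with rfl | hy
      · exact hb
      · exact ih h2 x hx' (by
          push_cast at hs
          linarith) y hy

theorem dot_ofFn : ∀ {n : ℕ} (a : Fin n → ℝ) (x : Fin n → ℤ),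
    dot (List.ofFn a) (List.ofFn x) = ∑ i, a i * (x i : ℝ) := by
  intro n
  induction n with
  | zero => intro a x; simp [dot]
  | succ n ih =>
    intro a x
    rw [List.ofFn_succ, List.ofFn_succ, dot, ih, Fin.sum_univ_succ]
    ring

theorem exists_ofFn {n : ℕ} {x : List ℤ} (h : x.length = n) : ∃ f : Fin n → ℤ, x = List.ofFn f := by
  subst h
  exact ⟨x.get, (List.ofFn_get x).symm⟩

theorem Digits.mono {b c : ℤ} {n : ℕ} {x : List ℤ} (h : Digits b n x) (hbc : b ≤ c) :
    Digits c n x := ⟨h.1, fun y hy => (h.2 y hy).trans hbc⟩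

theorem dot_neg : ∀ (u : List ℝ) (x : List ℤ), dot u (x.map (fun a => -a)) = -dot u x := by
  intro u
  induction u with
  | nil => intro x; simp [dot]
  | cons w u ih =>
    intro x
    cases x with
    | nil => simp [dot]
    | cons a x =>
      simp only [List.map_cons, dot, ih]
      push_cast
      ring

theorem digits_neg {b : ℤ} {n : ℕ} {x : List ℤ} (h : Digits b n x) :
    Digits b n (x.map (fun a => -a)) := by
  refine ⟨by rw [List.length_map, h.1], ?_⟩
  intro y hy
  obtain ⟨z, hz, rfl⟩ := List.mem_map.mp hy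
  rw [abs_neg]
  exact h.2 z hz

theorem Layered.adm {l : List ℝ} (h : Layered l) : Adm l := by
  induction h with
  | super l h => exact SI.adm h
  | @triangular n a h =>
    intro x hx hs
    obtain ⟨f, rfl⟩ := exists_ofFn (hx.1.trans (List.length_ofFn))
    rw [dot_ofFn] at hs
    have h1 : ∑ i, a i * f i = 0 := by exact_mod_cast hs
    have h2 := h.admissible f (by
      rw [Fintype.mem_piFinset]
      intro i
      have h3 := abs_le.mp (hx.2 (f i) (by rw [List.mem_ofFn]; exact ⟨i, rfl⟩))
      rw [Finset.mem_Icc]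
      exact h3) h1
    intro y hy
    rw [List.mem_ofFn] at hy
    obtain ⟨i, rfl⟩ := hy
    rw [h2]
    rfl
  | glue u u' v hl _ _ h ih1 ih2 =>
    intro x hx hs
    have hlen : x.length = u.length + v.length := by rw [hx.1, List.length_append]
    have hx1 : (x.take u.length).length = u.length := by rw [List.length_take, hlen]; omega
    have hx2 : (x.drop u.length).length = v.length := by rw [List.length_drop, hlen]; omega
    rw [← List.take_append_drop u.length x, dot_append _ _ _ _ hx1] at hs
    have d1 : Digits 1 u.length (x.take u.length) := ⟨hx1, fun y hy =>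
      hx.2 y (List.mem_of_mem_take hy)⟩
    have d2 : Digits 1 v.length (x.drop u.length) := ⟨hx2, fun y hy =>
      hx.2 y (List.mem_of_mem_drop hy)⟩
    have h1 := h (x.take u.length) ((x.drop u.length).map (fun a => -a))
      (d1.mono (by decide)) ((digits_neg d2).mono (by decide)) (by rw [dot_neg]; linarith)
    have h2 := ih1 (x.take u.length) ⟨hx1.trans hl, d1.2⟩ h1
    have h3 : dot u (x.take u.length) = 0 := by
      have : ∀ (u : List ℝ) (x : List ℤ), (∀ y ∈ x, y = 0) → dot u x = 0 := by
        intro u
        induction u with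
        | nil => intro x _; simp [dot]
        | cons w u ih =>
          intro x hx
          cases x with
          | nil => simp [dot]
          | cons a x =>
            simp only [dot]
            rw [ih x (fun y hy => hx y (by simp [hy])), hx a (by simp)]
            simp
      exact this _ _ h2
    have h4 := ih2 (x.drop u.length) d2 (by linarith)
    intro y hy
    rw [← List.take_append_drop u.length x, List.mem_append] at hy
    rcases hy with hy | hy
    · exact h2 y hy
    · exact h4 y hy
  | two w v _ h ih =>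
    intro x hx hs
    cases x with
    | nil => intro y hy; simp at hy
    | cons b x =>
      have hx' : Digits 1 v.length x := ⟨by simpa using hx.1, fun y hy => hx.2 y (by simp [hy])⟩
      simp only [dot] at hs
      have hzero : Digits 2 v.length (List.replicate v.length 0) := by
        refine ⟨List.length_replicate, ?_⟩
        intro y hy
        rw [List.eq_of_mem_replicate hy]
        decide
      have hdz : ∀ (u : List ℝ) (k : ℕ), dot u (List.replicate k 0) = 0 := by
        intro u
        induction u with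
        | nil => intro k; simp [dot]
        | cons a u ihu =>
          intro k
          cases k with
          | zero => simp [dot]
          | succ k => simp only [List.replicate_succ, dot, ihu]; simp
      have hb : b = 0 := by
        have hb1 := abs_le.mp (hx.2 b (by simp))
        by_contra hb0
        have hw : ∀ s : ℤ, (s = -1 ∨ s = 1) → ∃ z, Digits 2 v.length z ∧
            (0 : ℝ) - s * w = dot v z := by
          intro s hs'
          have hcase : s = b ∨ s = -b := by omega
          rcases hcase with rfl | rfl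
          · exact ⟨x, hx'.mono (by decide), by linarith⟩
          · refine ⟨x.map (fun a => -a), (digits_neg hx').mono (by decide), ?_⟩
            rw [dot_neg]
            push_cast
            linarith
        exact h 0 (-1) 0 1 (by decide) (by decide) (by decide) (by decide) (hw _ (Or.inl rfl))
          ⟨_, hzero, by rw [hdz]; simp⟩ (hw _ (Or.inr rfl))
      rw [hb] at hs
      intro y hy
      rw [List.mem_cons] at hy
      rcases hy with rfl | hy
      · exact hb
      · exact ih x hx' (by push_cast at hs; linarith) y hy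
  | perm l l' hp _ ih =>
    intro x hx hs
    obtain ⟨x', h1, h2⟩ := dot_perm hp.symm x hx.1
    have h3 := ih x' ⟨by rw [h1.length_eq, hx.1, hp.length_eq], fun y hy => hx.2 y (h1.mem_iff.mp hy)⟩
      (by rw [h2, hs])
    intro y hy
    exact h3 y (h1.mem_iff.mpr hy)

theorem Layered.admissible {n : ℕ} {a : Fin n → ℝ} (h : Layered (List.ofFn a)) : AdmissibleR a := by
  intro x hx hs
  have h1 := h.adm (List.ofFn x) ⟨by simp, by
    intro y hy
    rw [List.mem_ofFn] at hy
    obtain ⟨i, rfl⟩ := hy
    have h2 := Fintype.mem_piFinset.mp hx i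
    rw [Finset.mem_Icc] at h2
    rw [abs_le]
    exact h2⟩ (by rw [dot_ofFn]; exact hs)
  funext i
  exact h1 (x i) (by rw [List.mem_ofFn]; exact ⟨i, rfl⟩)

theorem Layered.of_superincreasing {n : ℕ} {a : Fin n → ℝ} (h : Superincreasing a) :
    Layered (List.ofFn a) := by
  obtain ⟨σ, hσ⟩ := h
  refine Layered.perm (List.ofFn (a ∘ σ)) _ (Equiv.Perm.ofFn_comp_perm σ a) (Layered.super _ ?_)
  rw [List.map_ofFn]
  exact SI_ofFn _ hσ

theorem Layered.secR_le {n k : ℕ} (a : Fin n → ℝ) (e : Fin k ↪ Fin n) (T : ℝ) (hk : 1 ≤ k)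
    (h : Layered (List.ofFn (a ∘ e))) : secR a T ≤ 5 ^ (n - k) * Q k := by
  obtain ⟨r, hr, hp⟩ := ofFn_permR a e
  rw [secR_eq, cntR_perm hp, ← hr]
  refine cntR_append_le _ _ (fun T => ?_) _ _
  have h1 := h.le_D T
  rw [List.length_ofFn] at h1
  obtain ⟨m, rfl⟩ : ∃ m, k = m + 1 := ⟨k - 1, by omega⟩
  rwa [D_succ] at h1

end Pool.Agent.Helper77.SI
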