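import Pool.Agent.Helper77.SI.Bridge

/-!
# Superincreasing coefficients: the lower bound
-/

namespace Pool.Agent.Helper77.SI

open Pool.Agent.Helper23.Hyper (P Q R S cnt pows jac)

theorem cntR_cast : ∀ (l : List ℤ) (T : ℤ), cntR (l.map (fun x : ℤ => (x : ℝ))) (T : ℝ) = cnt l T := by
  intro l
  induction l with
  | nil =>
    intro T
    simp [cntR, cnt]
  | cons u l ih =>
    intro T
    simp only [List.map_cons, cntR, cnt, ← ih]
    push_cast
    rfl

theorem cntR_neg (l : List ℝ) : ∀ T, cntR l (-T) = cntR l T := by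
  induction l with
  | nil => intro T; simp [cntR]
  | cons u l ih =>
    intro T
    simp only [cntR]
    rw [← ih (T + 2 * u), ← ih (T + u), ← ih (T - u), ← ih (T - 2 * u), ih T,
      show -(T + 2 * u) = -T - 2 * u by ring, show -(T + u) = -T - u by ring,
      show -(T - u) = -T + u by ring, show -(T - 2 * u) = -T + 2 * u by ring]
    ring

/-- The powers of two in decreasing order. -/
noncomputable def dp (n : ℕ) : Fin n → ℝ := fun i => 2 ^ (n - 1 - (i : ℕ))

theorem dp_succ (n : ℕ) : dp (n + 1) = Fin.cons (2 ^ n) (dp n) := by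
  funext i
  refine Fin.cases ?_ (fun i => ?_) i
  · simp [dp]
  · simp only [dp, Fin.cons_succ, Fin.val_succ]
    congr 1
    have := i.2
    omega

theorem ofFn_dp : ∀ n : ℕ, (List.ofFn (dp n)).Perm ((pows n).map (fun x : ℤ => (x : ℝ))) := by
  intro n
  induction n with
  | zero => rw [List.ofFn_zero]; exact List.Perm.refl _
  | succ n ih =>
    rw [dp_succ, List.ofFn_cons]
    rw [← Pool.Agent.Helper23.Hyper.ofFn_pows, List.ofFn_succ', List.concat_eq_append,
      List.map_append]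
    simp only [Fin.val_last, List.map_cons, List.map_nil, Fin.val_castSucc]
    rw [Pool.Agent.Helper23.Hyper.ofFn_pows]
    refine (List.Perm.cons _ ih).trans ?_
    have h : ((2 : ℝ) ^ n) = (((2 : ℤ) ^ n : ℤ) : ℝ) := by push_cast; rfl
    rw [h]
    exact (List.perm_append_singleton _ _).symm

theorem sum_dp (n : ℕ) : ∑ j, dp n j = 2 ^ n - 1 := by
  induction n with
  | zero => simp
  | succ n ih =>
    rw [dp_succ, Fin.sum_cons, ih]
    ring

theorem dp_pos (n : ℕ) (i : Fin n) : 0 < dp n i := by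
  unfold dp
  positivity

/-- A listing in decreasing order. -/
def Desc {n : ℕ} (b : Fin n → ℝ) : Prop := ∀ i, ∑ j ∈ Finset.Ioi i, |b j| < |b i|

theorem Desc.cons {n : ℕ} {b : Fin n → ℝ} (h : Desc b) {v : ℝ} (hv : ∑ j, |b j| < |v|) :
    Desc (Fin.cons v b : Fin (n + 1) → ℝ) := by
  intro i
  refine Fin.cases ?_ (fun i => ?_) i
  · rw [Fin.Ioi_zero_eq_map, Finset.sum_map]
    simpa using hv
  · rw [Fin.Ioi_succ, Finset.sum_map]
    simpa using h i

theorem desc_dp (n : ℕ) : Desc (dp n) := by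
  induction n with
  | zero => intro i; exact i.elim0
  | succ n ih =>
    rw [dp_succ]
    apply ih.cons
    have h : ∑ j, |dp n j| = ∑ j, dp n j :=
      Finset.sum_congr rfl fun j _ => abs_of_pos (dp_pos n j)
    rw [h, sum_dp, abs_of_pos (by positivity)]
    linarith

theorem superincreasing_pows (n : ℕ) :
    Superincreasing (fun i : Fin n => (2 : ℝ) ^ (i : ℕ)) := by
  refine ⟨Fin.revPerm, ?_⟩
  have h : ∀ i : Fin n, (2 : ℝ) ^ ((Fin.revPerm i : Fin n) : ℕ) = dp n i := by
    intro i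
    unfold dp
    congr 1
    rw [Fin.revPerm_apply, Fin.val_rev]
    omega
  intro i
  simp only [h]
  exact desc_dp n i

theorem secR_pows (n : ℕ) : ∃ T : ℝ, secR (fun i : Fin n => (2 : ℝ) ^ (i : ℕ)) T = Q n := by
  refine ⟨((jac n + (-1) ^ n : ℤ) : ℝ), ?_⟩
  rw [secR_eq, ← (Pool.Agent.Helper23.Hyper.pows_values n).2.1, ← cntR_cast,
    ← Pool.Agent.Helper23.Hyper.ofFn_pows, List.map_ofFn]
  congr 2
  funext i
  simp

theorem jac_nonneg (n : ℕ) : 0 ≤ jac n := by
  have h : 3 * jac n = 2 ^ n - (-1) ^ n := by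
    induction n with
    | zero => simp [jac]
    | succ n ih => simp only [jac]; rw [mul_add, pow_succ, pow_succ]; linarith
  have h1 : (1 : ℤ) ≤ 2 ^ n := one_le_pow₀ (by norm_num)
  rcases neg_one_pow_eq_or ℤ n with hn | hn <;> rw [hn] at h <;> omega

/-- The leading coefficient. -/
noncomputable def lead (m : ℕ) : ℝ := 2 ^ (m + 2) + ((jac m + (-1) ^ m : ℤ) : ℝ)

/-- The vector `(lead m, 2^(m+1), …, 2, 1)`. -/
noncomputable def ext (m : ℕ) : Fin (m + 3) → ℝ := Fin.cons (lead m) (dp (m + 2))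

theorem target_nonneg (m : ℕ) (hm : 1 ≤ m) : (0 : ℤ) ≤ jac m + (-1) ^ m := by
  obtain ⟨m, rfl⟩ : ∃ k, m = k + 1 := ⟨m - 1, by omega⟩
  have h := jac_nonneg m
  simp only [jac]
  rw [pow_succ]
  linarith

theorem superincreasing_ext (m : ℕ) (hm : 1 ≤ m) : Superincreasing (ext m) := by
  refine ⟨Equiv.refl _, ?_⟩
  have h : Desc (ext m) := by
    apply (desc_dp (m + 2)).cons
    have h1 : ∑ j, |dp (m + 2) j| = ∑ j, dp (m + 2) j :=
      Finset.sum_congr rfl fun j _ => abs_of_pos (dp_pos (m + 2) j)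
    have h2 : (0 : ℝ) ≤ ((jac m + (-1) ^ m : ℤ) : ℝ) := by exact_mod_cast target_nonneg m hm
    have h3 : (0 : ℝ) < lead m := by unfold lead; positivity
    rw [h1, sum_dp, abs_of_pos h3]
    unfold lead
    linarith
  exact h

theorem secR_ext (m : ℕ) : 2 * Q m ≤ secR (ext m) 0 := by
  rw [secR_eq]
  unfold ext
  rw [List.ofFn_cons]
  have h1 : Q m ≤ cntR (List.ofFn (dp (m + 2))) (lead m) := by
    rw [dp_succ, List.ofFn_cons, dp_succ, List.ofFn_cons]
    simp only [cntR]
    have h2 : cntR (List.ofFn (dp m)) (lead m - 2 ^ (m + 1) - 2 * 2 ^ m) = Q m := by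
      rw [show lead m - 2 ^ (m + 1) - 2 * 2 ^ m = ((jac m + (-1) ^ m : ℤ) : ℝ) by
        unfold lead; ring]
      rw [cntR_perm (ofFn_dp m), cntR_cast]
      exact (Pool.Agent.Helper23.Hyper.pows_values m).2.1
    omega
  simp only [cntR, zero_add, zero_sub]
  have h2 := cntR_neg (List.ofFn (dp (m + 2))) (lead m)
  omega

theorem ext_eq_cast (m : ℕ) : ∃ a : Fin (m + 3) → ℤ, (fun i => (a i : ℝ)) = ext m := by
  refine ⟨Fin.cons (2 ^ (m + 2) + (jac m + (-1) ^ m)) (fun i => 2 ^ (m + 2 - 1 - (i : ℕ))), ?_⟩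
  unfold ext
  funext i
  refine Fin.cases ?_ (fun i => ?_) i
  · simp only [Fin.cons_zero, lead]
    push_cast
    rfl
  · simp only [Fin.cons_succ, dp]
    push_cast
    rfl

theorem one_le_secR_zero {n : ℕ} (a : Fin n → ℝ) : 1 ≤ secR a 0 := by
  unfold secR
  rw [Nat.one_le_iff_ne_zero, ← Nat.pos_iff_ne_zero, Finset.card_pos]
  refine ⟨0, ?_⟩
  rw [Finset.mem_filter, Fintype.mem_piFinset]
  refine ⟨fun i => ?_, ?_⟩
  · simp
  · simp

end Pool.Agent.Helper77.SI
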