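import Pool.Agent.Helper77.SI.Path

/-!
# Superincreasing coefficients: the upper bound
-/

namespace Pool.Agent.Helper77.SI

open Pool.Agent.Helper23.Hyper (P Q R S)

/-- The number of ways of writing `T = ∑ x_i l_i` with all `x_i ∈ {-2, …, 2}`. -/
noncomputable def cntR : List ℝ → ℝ → ℕ
  | [], T => if T = 0 then 1 else 0
  | u :: l, T => cntR l (T + 2 * u) + cntR l (T + u) + cntR l T + cntR l (T - u) +
      cntR l (T - 2 * u)

/-- Each entry is larger than the sum of all later ones. -/
def SI : List ℝ → Prop
  | [] => True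
  | α :: l => l.sum < α ∧ SI l

theorem shift_le (A B : Finset ℤ) (f : ℤ → ℝ) (hf : ∀ z, 0 ≤ f z) (d : ℤ)
    (h : ∀ z ∈ A, z + d ∈ B) : ∑ z ∈ A, f z ≤ ∑ s ∈ B, f (s - d) := by
  have h1 : ∑ z ∈ A, f z = ∑ s ∈ A.image (fun z => z + d), f (s - d) := by
    rw [Finset.sum_image (by intro x _ y _ h; simpa using h)]
    refine Finset.sum_congr rfl fun z _ => ?_
    rw [show z + d - d = z by ring]
  rw [h1]
  apply Finset.sum_le_sum_of_subset_of_nonneg
  · intro s hs
    obtain ⟨z, hz, rfl⟩ := Finset.mem_image.mp hs
    exact h z hz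
  · intro s _ _
    exact hf _

theorem sum_double (B : Finset ℤ) (g : ℤ → ℝ) :
    ∑ r ∈ B.image (fun s => 2 * s) ∪ B.image (fun s => 2 * s + 1), g r =
      ∑ s ∈ B, g (2 * s) + ∑ s ∈ B, g (2 * s + 1) := by
  rw [Finset.sum_union, Finset.sum_image, Finset.sum_image]
  · intro x _ y _ h
    simp only at h
    omega
  · intro x _ y _ h
    simp only at h
    omega
  · rw [Finset.disjoint_left]
    intro r h1 h2
    obtain ⟨x, _, hx⟩ := Finset.mem_image.mp h1
    obtain ⟨y, _, hy⟩ := Finset.mem_image.mp h2
    omega

theorem main : ∀ (l : List ℝ) (k : ℕ) (w : ℤ → ℝ), Wt (k + 1) w → SI l → ∀ t : ℤ → ℝ,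
    (∀ z, l.sum < t z - t (z + 1)) → ∀ A : Finset ℤ,
      ∑ z ∈ A, w z * (cntR l (t z) : ℝ) ≤ Q (k + 1 + l.length) := by
  intro l
  induction l with
  | nil =>
    intro k w hw _ t ht A
    have hanti : StrictAnti t := by
      apply strictAnti_int_of_succ_lt
      intro z
      have := ht z
      simp only [List.sum_nil] at this
      linarith
    simp only [cntR, List.length_nil, Nat.add_zero]
    by_cases h : ∃ z ∈ A, t z = 0
    · obtain ⟨z, hz, h0⟩ := h
      rw [Finset.sum_eq_single z]
      · rw [if_pos h0]
        simpa using hw.all z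
      · intro y _ hy
        rw [if_neg, Nat.cast_zero, mul_zero]
        intro h1
        exact hy (hanti.injective (h1.trans h0.symm))
      · intro h1
        exact absurd hz h1
    · push Not at h
      rw [Finset.sum_eq_zero]
      · positivity
      · intro y hy
        rw [if_neg (h y hy), Nat.cast_zero, mul_zero]
  | cons α l ih =>
    intro k w hw hs t ht A
    obtain ⟨hα, hl⟩ := hs
    have hpos := hw.pos
    have hc := hw.cond
    have hw' := hw.next
    simp only [List.sum_cons] at ht
    set f : ℝ → ℝ := fun T => (cntR l T : ℝ) with hf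
    have hf0 : ∀ T, 0 ≤ f T := fun T => Nat.cast_nonneg _
    set w' := next (k + 1) w with hw'def
    set B : Finset ℤ := A ∪ A.image (fun z => z + 1) ∪ A.image (fun z => z - 1) with hB
    -- the bound for every path
    have hpath : ∀ U : ℝ, ∑ s ∈ B, w' (2 * s) *
          f (t (zr w U (2 * s)) - ((2 * s : ℤ) - 2 * zr w U (2 * s) : ℤ) * α) +
        ∑ s ∈ B, w' (2 * s + 1) *
          f (t (zr w U (2 * s + 1)) - ((2 * s + 1 : ℤ) - 2 * zr w U (2 * s + 1) : ℤ) * α) ≤
        Q (k + 1 + (l.length + 1)) := by
      intro U
      have h1 := ih (k + 1) w' hw' hl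
        (fun r => t (zr w U r) - ((r - 2 * zr w U r : ℤ) : ℝ) * α) ?_
        (B.image (fun s => 2 * s) ∪ B.image (fun s => 2 * s + 1))
      · rw [sum_double] at h1
        rw [show k + 1 + (l.length + 1) = k + 1 + 1 + l.length by ring]
        exact h1
      · intro r
        rcases zr_step hpos hc U r with h2 | h2
        · simp only [h2]
          push_cast
          linarith
        · simp only [h2]
          push_cast
          have := ht (zr w U r)
          linarith
    -- averaging
    have havg := average_le (ι := ℤ ⊕ ℤ) (B.disjSum B)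
      (Sum.elim (u1 w) (v1 w)) (Sum.elim (u2 w) (v1 w))
      (Sum.elim (fun s => w' (2 * s) * f (t (s - 1) - 2 * α))
        (fun s => w' (2 * s + 1) * f (t s - α)))
      (Sum.elim (fun s => w' (2 * s) * f (t s)) (fun s => 0))
      (Sum.elim (fun s => w' (2 * s) * f (t (s + 1) + 2 * α))
        (fun s => w' (2 * s + 1) * f (t (s + 1) + α)))
      (Q (k + 1 + (l.length + 1)))
      (by rintro (s | s); exacts [u1_nonneg hpos s, v1_nonneg hpos s])
      (by rintro (s | s); exacts [u1_le_u2 hpos s, le_refl _])
      (by rintro (s | s); exacts [u2_le_one hpos s, v1_le_one hpos s])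
      (by
        intro U
        rw [Finset.sum_disjSum]
        refine le_trans (le_of_eq ?_) (hpath U)
        congr 1
        · refine Finset.sum_congr rfl fun s _ => ?_
          simp only [Sum.elim_inl]
          rw [zr_even]
          by_cases a1 : U < u1 w s
          · simp only [if_pos a1]
            push_cast
            ring_nf
          · by_cases a2 : U < u2 w s
            · simp only [if_neg a1, if_pos a2]
              push_cast
              ring_nf
            · simp only [if_neg a1, if_neg a2]
              push_cast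
              ring_nf
        · refine Finset.sum_congr rfl fun s _ => ?_
          simp only [Sum.elim_inr]
          rw [zr_odd]
          by_cases a1 : U < v1 w s
          · simp only [if_pos a1]
            push_cast
            ring_nf
          · simp only [if_neg a1]
            push_cast
            ring_nf)
    rw [Finset.sum_disjSum] at havg
    simp only [Sum.elim_inl, Sum.elim_inr, mul_zero, add_zero, sub_self, zero_mul] at havg
    -- even ranks
    have hev : ∀ s, u1 w s * (w' (2 * s) * f (t (s - 1) - 2 * α)) +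
        (u2 w s - u1 w s) * (w' (2 * s) * f (t s)) +
        (1 - u2 w s) * (w' (2 * s) * f (t (s + 1) + 2 * α)) =
        w (s - 1) * f (t (s - 1) - 2 * α) + w s * f (t s) + w (s + 1) * f (t (s + 1) + 2 * α) := by
      intro s
      have hE := E_pos hpos s
      have e1 : w' (2 * s) = E w s := next_even _ _ _
      have e2 : u1 w s * E w s = w (s - 1) := by unfold u1; field_simp
      have e3 : u2 w s * E w s = w (s - 1) + w s := by unfold u2; field_simp
      have e4 : E w s = w (s - 1) + w s + w (s + 1) := rfl
      rw [e1]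
      have g1 : u1 w s * (E w s * f (t (s - 1) - 2 * α)) = w (s - 1) * f (t (s - 1) - 2 * α) := by
        rw [← mul_assoc, e2]
      have g2 : (u2 w s - u1 w s) * (E w s * f (t s)) = w s * f (t s) := by
        rw [← mul_assoc, sub_mul, e2, e3]; ring
      have g3 : (1 - u2 w s) * (E w s * f (t (s + 1) + 2 * α)) =
          w (s + 1) * f (t (s + 1) + 2 * α) := by
        rw [← mul_assoc, sub_mul, e3, one_mul]
        rw [e4]; ring
      rw [g1, g2, g3]
    -- odd ranks
    have hod : ∀ s, w s * f (t s - α) + w (s + 1) * f (t (s + 1) + α) ≤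
        v1 w s * (w' (2 * s + 1) * f (t s - α)) +
        (1 - v1 w s) * (w' (2 * s + 1) * f (t (s + 1) + α)) := by
      intro s
      have p0 := hpos s
      have p1 := hpos (s + 1)
      have e1 : w' (2 * s + 1) = O (k + 1) w s := next_odd _ _ _
      have e2 : w s + w (s + 1) ≤ O (k + 1) w s := le_max_left _ _
      have e3 : v1 w s * (w s + w (s + 1)) = w s := by unfold v1; field_simp
      have h1 : w s ≤ v1 w s * O (k + 1) w s := by
        calc w s = v1 w s * (w s + w (s + 1)) := e3.symm
          _ ≤ _ := mul_le_mul_of_nonneg_left e2 (v1_nonneg hpos s)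
      have h2 : w (s + 1) ≤ (1 - v1 w s) * O (k + 1) w s := by
        calc w (s + 1) = (1 - v1 w s) * (w s + w (s + 1)) := by rw [sub_mul, e3]; ring
          _ ≤ _ := mul_le_mul_of_nonneg_left e2 (by linarith [v1_le_one hpos s])
      rw [e1, ← mul_assoc, ← mul_assoc]
      exact add_le_add (mul_le_mul_of_nonneg_right h1 (hf0 _))
        (mul_le_mul_of_nonneg_right h2 (hf0 _))
    rw [Finset.sum_congr rfl fun s _ => hev s] at havg
    have hod' := Finset.sum_le_sum (s := B) fun s _ => hod s
    rw [Finset.sum_add_distrib] at hod'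
    rw [Finset.sum_add_distrib, Finset.sum_add_distrib] at havg
    -- shifts
    have mB0 : ∀ z ∈ A, z + 0 ∈ B := by
      intro z hz
      rw [hB, add_zero]
      simp only [Finset.mem_union]
      left; left; exact hz
    have mB1 : ∀ z ∈ A, z + 1 ∈ B := by
      intro z hz
      rw [hB]
      simp only [Finset.mem_union, Finset.mem_image]
      left; right; exact ⟨z, hz, rfl⟩
    have mB2 : ∀ z ∈ A, z + (-1) ∈ B := by
      intro z hz
      rw [hB]
      simp only [Finset.mem_union, Finset.mem_image]
      right; exact ⟨z, hz, by ring⟩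
    have s1 := shift_le A B (fun z => w z * f (t z - 2 * α))
      (fun z => mul_nonneg (hpos z).le (hf0 _)) 1 mB1
    have s2 := shift_le A B (fun z => w z * f (t z))
      (fun z => mul_nonneg (hpos z).le (hf0 _)) 0 mB0
    have s3 := shift_le A B (fun z => w z * f (t z + 2 * α))
      (fun z => mul_nonneg (hpos z).le (hf0 _)) (-1) mB2
    have s4 := shift_le A B (fun z => w z * f (t z - α))
      (fun z => mul_nonneg (hpos z).le (hf0 _)) 0 mB0
    have s5 := shift_le A B (fun z => w z * f (t z + α))
      (fun z => mul_nonneg (hpos z).le (hf0 _)) (-1) mB2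
    simp only [sub_zero, sub_neg_eq_add] at s1 s2 s3 s4 s5
    have hsplit : ∑ z ∈ A, w z * (cntR (α :: l) (t z) : ℝ) =
        ∑ z ∈ A, w z * f (t z + 2 * α) + ∑ z ∈ A, w z * f (t z + α) + ∑ z ∈ A, w z * f (t z) +
        ∑ z ∈ A, w z * f (t z - α) + ∑ z ∈ A, w z * f (t z - 2 * α) := by
      rw [← Finset.sum_add_distrib, ← Finset.sum_add_distrib, ← Finset.sum_add_distrib,
        ← Finset.sum_add_distrib]
      refine Finset.sum_congr rfl fun z _ => ?_
      simp only [cntR, hf]
      push_cast
      ring
    rw [hsplit, List.length_cons]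
    linarith

end Pool.Agent.Helper77.SI
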