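import Pool.Agent.Helper23.Hyper.Count

/-!
# The numbers `P, Q, R, S`: the inequality `Q R ≤ S (S + R)`
-/

namespace Pool.Agent.Helper77.SI

open Pool.Agent.Helper23.Hyper

theorem lin_aux : ∀ n : ℕ, 27 * R (n + 6) ≤ 40 * S (n + 6) ∧
      27 * Q (n + 6) + 27 * S (n + 6) ≤ 13 * P (n + 6) + 40 * R (n + 6) ∧
      1 * P (n + 6) + 54 * R (n + 6) ≤ 26 * Q (n + 6) + 40 * S (n + 6) ∧
      29 * Q (n + 6) + 54 * S (n + 6) ≤ 11 * P (n + 6) + 66 * R (n + 6) ∧
      6 * P (n + 6) + 83 * R (n + 6) ≤ 48 * Q (n + 6) + 66 * S (n + 6) ∧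
      41 * Q (n + 6) + 83 * S (n + 6) ≤ 25 * P (n + 6) + 114 * R (n + 6) ∧
      124 * R (n + 6) ≤ 15 * P (n + 6) + 98 * Q (n + 6) + 114 * S (n + 6) ∧
      11 * Q (n + 6) + 124 * S (n + 6) ≤ 103 * P (n + 6) + 212 * R (n + 6) ∧
      135 * R (n + 6) ≤ 180 * P (n + 6) + 304 * Q (n + 6) + 212 * S (n + 6) ∧
      135 * S (n + 6) ≤ 561 * P (n + 6) + 349 * Q (n + 6) + 516 * R (n + 6) ∧
      100 * Q (n + 6) ≤ 113 * R (n + 6) ∧
      100 * R (n + 6) ≤ 13 * P (n + 6) + 13 * Q (n + 6) + 113 * S (n + 6) ∧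
      74 * Q (n + 6) + 100 * S (n + 6) ≤ 39 * P (n + 6) + 126 * R (n + 6) ∧
      9 * P (n + 6) + 174 * R (n + 6) ≤ 91 * Q (n + 6) + 126 * S (n + 6) ∧
      92 * Q (n + 6) + 174 * S (n + 6) ≤ 34 * P (n + 6) + 217 * R (n + 6) ∧
      15 * P (n + 6) + 266 * R (n + 6) ≤ 159 * Q (n + 6) + 217 * S (n + 6) ∧
      122 * Q (n + 6) + 266 * S (n + 6) ≤ 95 * P (n + 6) + 376 * R (n + 6) ∧
      388 * R (n + 6) ≤ 83 * P (n + 6) + 349 * Q (n + 6) + 376 * S (n + 6) ∧
      388 * S (n + 6) ≤ 420 * P (n + 6) + 44 * Q (n + 6) + 725 * R (n + 6) ∧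
      344 * R (n + 6) ≤ 801 * P (n + 6) + 1189 * Q (n + 6) + 725 * S (n + 6) ∧
      344 * S (n + 6) ≤ 2371 * P (n + 6) + 1646 * Q (n + 6) + 1914 * R (n + 6) := by
  intro n
  induction n with
  | zero => decide
  | succ n ih =>
    have p := P_succ (n + 6)
    have q := Q_succ (n + 6)
    have r := R_succ (n + 6)
    have s := S_succ (n + 6)
    rw [show n + 1 + 6 = n + 6 + 1 by ring]
    obtain ⟨h0, h1, h2, h3, h4, h5, h6, h7, h8, h9, h10, h11, h12, h13, h14, h15, h16, h17, h18, h19, h20⟩ := ih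
    refine ⟨?_, ?_, ?_, ?_, ?_, ?_, ?_, ?_, ?_, ?_, ?_, ?_, ?_, ?_, ?_, ?_, ?_, ?_, ?_, ?_, ?_⟩ <;> omega

theorem lin (n : ℕ) : 27 * R (n + 6) ≤ 40 * S (n + 6) ∧ 100 * Q (n + 6) ≤ 113 * R (n + 6) := by
  have h := lin_aux n
  refine ⟨h.1, ?_⟩

  exact h.2.2.2.2.2.2.2.2.2.2.1

/-- The inequality which makes the random paths possible. -/
theorem key (k : ℕ) : Q (k + 1) * R (k + 1) ≤ S (k + 1) * (S (k + 1) + R (k + 1)) := by
  by_cases hk : k < 5
  · interval_cases k <;> decide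
  · obtain ⟨n, rfl⟩ : ∃ n, k = n + 5 := ⟨k - 5, by omega⟩
    have h := lin n
    rw [show n + 5 + 1 = n + 6 by ring]
    set q := Q (n + 6)
    set r := R (n + 6)
    set s := S (n + 6)
    obtain ⟨h1, h2⟩ := h
    have h3 : 100 * (q * r) ≤ 113 * (r * r) := by
      calc 100 * (q * r) = (100 * q) * r := by ring
        _ ≤ (113 * r) * r := Nat.mul_le_mul_right r h2
        _ = 113 * (r * r) := by ring
    have h4 : 27 * (r * r) ≤ 40 * (s * r) := by
      calc 27 * (r * r) = (27 * r) * r := by ring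
        _ ≤ (40 * s) * r := Nat.mul_le_mul_right r h1
        _ = 40 * (s * r) := by ring
    have h5 : 27 * (s * r) ≤ 40 * (s * s) := by
      calc 27 * (s * r) = s * (27 * r) := by ring
        _ ≤ s * (40 * s) := Nat.mul_le_mul_left s h1
        _ = 40 * (s * s) := by ring
    have h6 : s * (s + r) = s * s + s * r := by ring
    rw [h6]
    omega

/-- All the linear inequalities which are needed. -/
theorem lins (k : ℕ) : S (k + 1) ≤ P (k + 1) ∧ P (k + 1) ≤ R (k + 1) ∧ R (k + 1) ≤ Q (k + 1) ∧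
    S (k + 1) ≤ R (k + 1) ∧ Q (k + 1) + 2 * S (k + 1) ≤ P (k + 1) + 2 * R (k + 1) ∧
    Q (k + 1) ≤ R (k + 1) + S (k + 1) ∧ 1 ≤ S (k + 1) := by
  have h0 := ineqs k
  have h : S (k + 1) ≤ P (k + 1) ∧ 1 ≤ S (k + 1) := by
    cases k with
    | zero => decide
    | succ k =>
      have h1 := ineqs k
      have p := P_succ (k + 1)
      have s := S_succ (k + 1)
      have h2 : 1 ≤ P (k + 1) := by
        clear h0 h1 p s
        induction k with
        | zero => decide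
        | succ k ih => rw [P_succ]; omega
      omega
  have h2 : Q (k + 1) + 2 * S (k + 1) ≤ P (k + 1) + 2 * R (k + 1) := by
    cases k with
    | zero => decide
    | succ k =>
      have h1 := ineqs k
      rw [P_succ (k + 1), Q_succ (k + 1), R_succ (k + 1), S_succ (k + 1)]
      omega
  have h3 : Q (k + 1) ≤ R (k + 1) + S (k + 1) := by
    rw [Q_succ, R_succ, S_succ]
    omega
  omega

end Pool.Agent.Helper77.SI
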