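import Pool.Agent.Helper77.SI.Weights

/-!
# Random paths of targets
-/

open MeasureTheory

namespace Pool.Agent.Helper77.SI

/-- First threshold at an even place. -/
noncomputable def u1 (w : ℤ → ℝ) (s : ℤ) : ℝ := w (s - 1) / E w s
/-- Second threshold at an even place. -/
noncomputable def u2 (w : ℤ → ℝ) (s : ℤ) : ℝ := (w (s - 1) + w s) / E w s
/-- Threshold at an odd place. -/
noncomputable def v1 (w : ℤ → ℝ) (s : ℤ) : ℝ := w s / (w s + w (s + 1))

/-- The quantile path. -/
noncomputable def zr (w : ℤ → ℝ) (U : ℝ) : ℤ → ℤ := fun r =>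
  if r % 2 = 0 then
    (if U < u1 w (r / 2) then r / 2 - 1 else if U < u2 w (r / 2) then r / 2 else r / 2 + 1)
  else (if U < v1 w (r / 2) then r / 2 else r / 2 + 1)

theorem zr_even (w : ℤ → ℝ) (U : ℝ) (s : ℤ) :
    zr w U (2 * s) = if U < u1 w s then s - 1 else if U < u2 w s then s else s + 1 := by
  unfold zr
  rw [if_pos (by omega), show 2 * s / 2 = s by omega]

theorem zr_odd (w : ℤ → ℝ) (U : ℝ) (s : ℤ) :
    zr w U (2 * s + 1) = if U < v1 w s then s else s + 1 := by
  unfold zr
  rw [if_neg (by omega), show (2 * s + 1) / 2 = s by omega]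

section

variable {w : ℤ → ℝ} (hpos : ∀ z, 0 < w z)
  (hc : ∀ z, w (z - 1) * w (z + 1) ≤ w z * (w z + w (z - 1)) ∧
    w (z - 1) * w (z + 1) ≤ w z * (w z + w (z + 1)))

include hpos

theorem E_pos (s : ℤ) : 0 < E w s := by
  unfold E
  linarith [hpos (s - 1), hpos s, hpos (s + 1)]

theorem v1_le_u2 (s : ℤ) : v1 w s ≤ u2 w s := by
  unfold v1 u2
  have h0 := hpos (s - 1)
  have h1 := hpos s
  have h2 := hpos (s + 1)
  rw [div_le_div_iff₀ (by linarith) (E_pos hpos s)]
  unfold E
  nlinarith [mul_pos h0 h2]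

theorem u1_le_v1' (s : ℤ) : u1 w (s + 1) ≤ v1 w s := by
  unfold v1 u1
  have h0 := hpos (s + 1 + 1)
  have h1 := hpos s
  have h2 := hpos (s + 1)
  rw [div_le_div_iff₀ (E_pos hpos _) (by linarith)]
  unfold E
  rw [show s + 1 - 1 = s by ring]
  nlinarith [mul_pos h0 h1]

theorem u1_le_u2 (s : ℤ) : u1 w s ≤ u2 w s := by
  unfold u1 u2
  rw [div_le_div_iff_of_pos_right (E_pos hpos s)]
  linarith [hpos s]

theorem u1_nonneg (s : ℤ) : 0 ≤ u1 w s := div_nonneg (hpos _).le (E_pos hpos s).le

theorem u2_le_one (s : ℤ) : u2 w s ≤ 1 := by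
  unfold u2
  rw [div_le_one (E_pos hpos s)]
  unfold E
  linarith [hpos (s + 1)]

theorem v1_nonneg (s : ℤ) : 0 ≤ v1 w s :=
  div_nonneg (hpos _).le (by linarith [hpos s, hpos (s + 1)])

theorem v1_le_one (s : ℤ) : v1 w s ≤ 1 := by
  unfold v1
  rw [div_le_one (by linarith [hpos s, hpos (s + 1)])]
  linarith [hpos (s + 1)]

include hc

theorem u1_le_v1 (s : ℤ) : u1 w s ≤ v1 w s := by
  unfold v1 u1
  have h0 := hpos (s - 1)
  have h1 := hpos s
  have h2 := hpos (s + 1)
  have h3 := (hc s).2
  rw [div_le_div_iff₀ (E_pos hpos _) (by linarith)]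
  unfold E
  nlinarith

theorem v1_le_u2' (s : ℤ) : v1 w s ≤ u2 w (s + 1) := by
  unfold v1 u2
  have h0 := hpos (s + 1 + 1)
  have h1 := hpos s
  have h2 := hpos (s + 1)
  have h3 := (hc (s + 1)).1
  rw [show s + 1 - 1 = s by ring] at h3
  rw [div_le_div_iff₀ (by linarith) (E_pos hpos _)]
  unfold E
  rw [show s + 1 - 1 = s by ring]
  nlinarith

/-- The path moves by `0` or `1`. -/
theorem zr_step (U : ℝ) (r : ℤ) : zr w U (r + 1) = zr w U r ∨ zr w U (r + 1) = zr w U r + 1 := by
  rcases Int.even_or_odd' r with ⟨s, hs | hs⟩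
  · subst hs
    rw [zr_even, zr_odd]
    have h1 := v1_le_u2 hpos s
    have h2 := u1_le_v1 hpos hc s
    by_cases a1 : U < u1 w s
    · rw [if_pos a1, if_pos (by linarith)]
      right; ring
    · rw [if_neg a1]
      by_cases a2 : U < u2 w s
      · rw [if_pos a2]
        by_cases a3 : U < v1 w s
        · rw [if_pos a3]; left; rfl
        · rw [if_neg a3]; right; rfl
      · rw [if_neg a2, if_neg (by linarith)]
        left; rfl
  · subst hs
    rw [show 2 * s + 1 + 1 = 2 * (s + 1) by ring, zr_even, zr_odd]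
    have h1 := u1_le_v1' hpos s
    have h2 := v1_le_u2' hpos hc s
    by_cases a1 : U < u1 w (s + 1)
    · rw [if_pos a1, if_pos (by linarith)]
      left; ring
    · rw [if_neg a1]
      by_cases a2 : U < u2 w (s + 1)
      · rw [if_pos a2]
        by_cases a3 : U < v1 w s
        · rw [if_pos a3]; right; rfl
        · rw [if_neg a3]; left; rfl
      · rw [if_neg a2, if_neg (by linarith)]
        right; rfl

end

/-! ### Averages of step functions -/

/-- The indicator of `U < c`. -/
noncomputable def ind (c U : ℝ) : ℝ := if U < c then 1 else 0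

theorem ind_eq (c : ℝ) : ind c = Set.indicator (Set.Iio c) (fun _ => (1 : ℝ)) := by
  funext U
  unfold ind Set.indicator
  simp only [Set.mem_Iio]

theorem ind_integrable (c : ℝ) : IntegrableOn (ind c) (Set.Ioc 0 1) volume := by
  rw [ind_eq]
  apply Integrable.indicator _ measurableSet_Iio
  exact integrableOn_const (by simp)

theorem ind_integral {c : ℝ} (h0 : 0 ≤ c) (h1 : c ≤ 1) :
    ∫ U in Set.Ioc (0 : ℝ) 1, ind c U = c := by
  rw [ind_eq, integral_indicator measurableSet_Iio, Measure.restrict_restrict measurableSet_Iio]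
  have : Set.Iio c ∩ Set.Ioc (0 : ℝ) 1 = Set.Ioo 0 c := by
    ext x
    simp only [Set.mem_inter_iff, Set.mem_Iio, Set.mem_Ioc, Set.mem_Ioo]
    constructor
    · rintro ⟨a, b, _⟩; exact ⟨b, a⟩
    · rintro ⟨a, b⟩; exact ⟨b, a, by linarith⟩
  rw [this]
  simp [h0]

/-- If a finite sum of two-step functions is bounded by `B`, so is the sum of the averages. -/
theorem average_le {ι : Type*} (A : Finset ι) (a b x y z : ι → ℝ) (B : ℝ)
    (ha : ∀ i, 0 ≤ a i) (hab : ∀ i, a i ≤ b i) (hb : ∀ i, b i ≤ 1)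
    (h : ∀ U : ℝ, ∑ i ∈ A, (if U < a i then x i else if U < b i then y i else z i) ≤ B) :
    ∑ i ∈ A, (a i * x i + (b i - a i) * y i + (1 - b i) * z i) ≤ B := by
  have hI : ∀ i, IntegrableOn (fun U => (x i - y i) * ind (a i) U + (y i - z i) * ind (b i) U + z i)
      (Set.Ioc 0 1) volume := by
    intro i
    exact (((ind_integrable _).const_mul _).add ((ind_integrable _).const_mul _)).add
      (integrableOn_const (by simp))
  have h1 : ∀ U, ∑ i ∈ A, ((x i - y i) * ind (a i) U + (y i - z i) * ind (b i) U + z i) ≤ B := by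
    intro U
    refine le_trans (le_of_eq (Finset.sum_congr rfl fun i _ => ?_)) (h U)
    unfold ind
    by_cases h1 : U < a i
    · rw [if_pos h1, if_pos h1, if_pos (lt_of_lt_of_le h1 (hab i))]; ring
    · rw [if_neg h1, if_neg h1]
      by_cases h2 : U < b i
      · rw [if_pos h2, if_pos h2]; ring
      · rw [if_neg h2, if_neg h2]; ring
  have h2 : ∫ U in Set.Ioc (0 : ℝ) 1,
      (∑ i ∈ A, ((x i - y i) * ind (a i) U + (y i - z i) * ind (b i) U + z i)) ≤
      ∫ _U in Set.Ioc (0 : ℝ) 1, B := by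
    apply setIntegral_mono
    · exact integrable_finsetSum _ fun i _ => hI i
    · exact integrableOn_const (by simp)
    · exact h1
  rw [integral_finsetSum _ fun i _ => hI i] at h2
  have h3 : ∫ _U in Set.Ioc (0 : ℝ) 1, B = B := by simp
  rw [h3] at h2
  refine le_trans (le_of_eq (Finset.sum_congr rfl fun i _ => ?_)) h2
  have e1 : Integrable (fun U => (x i - y i) * ind (a i) U) (volume.restrict (Set.Ioc 0 1)) :=
    (ind_integrable _).const_mul _
  have e2 : Integrable (fun U => (y i - z i) * ind (b i) U) (volume.restrict (Set.Ioc 0 1)) :=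
    (ind_integrable _).const_mul _
  have e3 : Integrable (fun _ : ℝ => z i) (volume.restrict (Set.Ioc (0 : ℝ) 1)) :=
    integrableOn_const (by simp)
  have e4 : ∫ U in Set.Ioc (0 : ℝ) 1,
      ((x i - y i) * ind (a i) U + (y i - z i) * ind (b i) U + z i) =
      (x i - y i) * a i + (y i - z i) * b i + z i := by
    have f1 := integral_add (e1.add e2) e3
    have f2 := integral_add e1 e2
    simp only [Pi.add_apply] at f1 f2
    rw [f1, f2, integral_const_mul, integral_const_mul,
      ind_integral (ha i) ((hab i).trans (hb i)), ind_integral ((ha i).trans (hab i)) (hb i)]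
    simp
  rw [e4]
  ring

end Pool.Agent.Helper77.SI
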