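import Pool.Agent.Helper77.SI.Num

/-!
# The weights of the random paths
-/

namespace Pool.Agent.Helper77.SI

open Pool.Agent.Helper23.Hyper

/-- The conditions on the weights at level `k`. -/
structure Wt (k : ℕ) (w : ℤ → ℝ) : Prop where
  pos : ∀ z, 0 < w z
  all : ∀ z, w z ≤ Q k
  odd : ∀ z, w (2 * z + 1) ≤ P k
  pair : ∀ z, w (2 * z) + w (2 * z + 2) ≤ Q k + R k
  triple : ∀ z, w (2 * z - 1) + w (2 * z) + w (2 * z + 1) ≤ R (k + 1)
  domr : ∀ z, w (2 * z + 1) ≤ w (2 * z)
  doml : ∀ z, w (2 * z - 1) ≤ w (2 * z)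
  condl : ∀ z, w (2 * z) * w (2 * z + 2) ≤ w (2 * z + 1) * (w (2 * z + 1) + w (2 * z))
  condr : ∀ z, w (2 * z) * w (2 * z + 2) ≤ w (2 * z + 1) * (w (2 * z + 1) + w (2 * z + 2))

theorem Wt.one : Wt 1 (fun _ => 1) := by
  have e1 : P 1 = 1 := by decide
  have e2 : Q 1 = 1 := by decide
  have e3 : R 1 = 1 := by decide
  have e4 : R (1 + 1) = 3 := by decide
  refine ⟨?_, ?_, ?_, ?_, ?_, ?_, ?_, ?_, ?_⟩ <;> intro z <;> norm_num [e1, e2, e3, e4]

/-- The coupling conditions at all places. -/
theorem Wt.cond {k : ℕ} {w : ℤ → ℝ} (h : Wt k w) (z : ℤ) :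
    w (z - 1) * w (z + 1) ≤ w z * (w z + w (z - 1)) ∧
      w (z - 1) * w (z + 1) ≤ w z * (w z + w (z + 1)) := by
  rcases Int.even_or_odd' z with ⟨s, hs | hs⟩
  · subst hs
    have h1 := h.domr s
    have h2 := h.doml s
    have p0 := h.pos (2 * s)
    have p1 := h.pos (2 * s + 1)
    have p2 := h.pos (2 * s - 1)
    constructor <;> nlinarith
  · subst hs
    have h1 := h.condl s
    have h2 := h.condr s
    rw [show 2 * s + 1 - 1 = 2 * s by ring, show 2 * s + 1 + 1 = 2 * s + 2 by ring]
    exact ⟨h1, h2⟩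

/-- Sum of three neighbours. -/
noncomputable def E (w : ℤ → ℝ) (s : ℤ) : ℝ := w (s - 1) + w s + w (s + 1)

/-- The weight at an odd place. -/
noncomputable def O (k : ℕ) (w : ℤ → ℝ) (s : ℤ) : ℝ :=
  max (w s + w (s + 1)) (min (S (k + 1) : ℝ) (min (E w s) (E w (s + 1))))

/-- The next weights. -/
noncomputable def next (k : ℕ) (w : ℤ → ℝ) : ℤ → ℝ := fun r =>
  if r % 2 = 0 then E w (r / 2) else O k w (r / 2)

theorem next_even (k : ℕ) (w : ℤ → ℝ) (s : ℤ) : next k w (2 * s) = E w s := by
  unfold next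
  rw [if_pos (by omega), show 2 * s / 2 = s by omega]

theorem next_odd (k : ℕ) (w : ℤ → ℝ) (s : ℤ) : next k w (2 * s + 1) = O k w s := by
  unfold next
  rw [if_neg (by omega), show (2 * s + 1) / 2 = s by omega]

theorem Wt.next {k : ℕ} {w : ℤ → ℝ} (h : Wt (k + 1) w) : Wt (k + 2) (next (k + 1) w) := by
  have hE0 : ∀ s, E w (2 * s) ≤ R (k + 2) := fun s => h.triple s
  have hE1 : ∀ s, E w (2 * s + 1) ≤ Q (k + 2) := by
    intro s
    have h1 := h.pair s
    have h2 := h.odd s
    have h3 : (Q (k + 2) : ℝ) = P (k + 1) + Q (k + 1) + R (k + 1) := by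
      exact_mod_cast Q_succ (k + 1)
    unfold E
    rw [show 2 * s + 1 - 1 = 2 * s by ring, show 2 * s + 1 + 1 = 2 * s + 2 by ring, h3]
    linarith
  obtain ⟨l1, l2, l3, l4, l5, l6, l7⟩ := lins (k + 1)
  obtain ⟨m1, m2, m3, m4, m5, m6, m7⟩ := lins k
  have l1' : (S (k + 2) : ℝ) ≤ P (k + 2) := by exact_mod_cast l1
  have l2' : (P (k + 2) : ℝ) ≤ R (k + 2) := by exact_mod_cast l2
  have l3' : (R (k + 2) : ℝ) ≤ Q (k + 2) := by exact_mod_cast l3
  have l4' : (S (k + 2) : ℝ) ≤ R (k + 2) := by exact_mod_cast l4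
  have l6' : (Q (k + 2) : ℝ) ≤ R (k + 2) + S (k + 2) := by exact_mod_cast l6
  have l7' : (1 : ℝ) ≤ S (k + 2) := by exact_mod_cast l7
  have m5' : (Q (k + 1) : ℝ) + 2 * S (k + 1) ≤ P (k + 1) + 2 * R (k + 1) := by exact_mod_cast m5
  have sP : (P (k + 2) : ℝ) = P (k + 1) + Q (k + 1) := by exact_mod_cast P_succ (k + 1)
  have sQ : (Q (k + 2) : ℝ) = P (k + 1) + Q (k + 1) + R (k + 1) := by
    exact_mod_cast Q_succ (k + 1)
  have sR : (R (k + 2) : ℝ) = P (k + 1) + Q (k + 1) + S (k + 1) := by
    exact_mod_cast R_succ (k + 1)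
  have sS : (S (k + 2) : ℝ) = P (k + 1) + R (k + 1) := by exact_mod_cast S_succ (k + 1)
  have sR2 : (R (k + 2 + 1) : ℝ) = P (k + 2) + Q (k + 2) + S (k + 2) := by
    exact_mod_cast R_succ (k + 2)
  have hEQ : ∀ s, E w s ≤ Q (k + 2) := by
    intro s
    rcases Int.even_or_odd' s with ⟨t, ht | ht⟩
    · subst ht; exact (hE0 t).trans l3'
    · subst ht; exact hE1 t
  have hEE : ∀ s, E w s + E w (s + 1) ≤ Q (k + 2) + R (k + 2) := by
    intro s
    rcases Int.even_or_odd' s with ⟨t, ht | ht⟩
    · subst ht; linarith [hE0 t, hE1 t]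
    · subst ht
      have h1 := hE0 (t + 1)
      rw [show 2 * (t + 1) = 2 * t + 1 + 1 by ring] at h1
      linarith [hE1 t]
  have hpos : ∀ s, 0 < E w s := by
    intro s
    unfold E
    linarith [h.pos (s - 1), h.pos s, h.pos (s + 1)]
  -- sums of two neighbours
  have hA : ∀ s, w s + w (s + 1) ≤ P (k + 2) := by
    intro s
    rw [sP]
    rcases Int.even_or_odd' s with ⟨t, ht | ht⟩
    · subst ht; linarith [h.odd t, h.all (2 * t)]
    · subst ht; linarith [h.odd t, h.all (2 * t + 1 + 1)]
  have hAl : ∀ s, w s + w (s + 1) ≤ E w s := fun s => by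
    unfold E; linarith [h.pos (s - 1)]
  have hAr : ∀ s, w s + w (s + 1) ≤ E w (s + 1) := fun s => by
    unfold E
    rw [show s + 1 - 1 = s by ring]
    linarith [h.pos (s + 1 + 1)]
  -- the ratio of neighbouring sums of three
  have hrat1 : ∀ s, E w s ≤ 2 * E w (s + 1) := by
    intro s
    have key : w (s - 1) ≤ w s + w (s + 1) := by
      rcases Int.even_or_odd' s with ⟨t, ht | ht⟩
      · subst ht; linarith [h.doml t, h.pos (2 * t + 1)]
      · subst ht
        by_contra hc
        push Not at hc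
        have h1 := h.condr t
        have h2 := h.doml (t + 1)
        have p1 := h.pos (2 * t + 1)
        have p2 := h.pos (2 * t + 2)
        rw [show 2 * (t + 1) - 1 = 2 * t + 1 by ring, show 2 * (t + 1) = 2 * t + 2 by ring] at h2
        rw [show 2 * t + 1 - 1 = 2 * t by ring, show 2 * t + 1 + 1 = 2 * t + 2 by ring] at hc
        nlinarith
    unfold E
    rw [show s + 1 - 1 = s by ring]
    linarith [h.pos (s + 1 + 1), h.pos s, h.pos (s + 1)]
  have hrat2 : ∀ s, E w (s + 1) ≤ 2 * E w s := by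
    intro s
    have key : w (s + 1 + 1) ≤ w (s + 1) + w s := by
      rcases Int.even_or_odd' s with ⟨t, ht | ht⟩
      · subst ht
        by_contra hc
        push Not at hc
        have h1 := h.condl t
        have h2 := h.domr t
        have p1 := h.pos (2 * t + 1)
        have p2 := h.pos (2 * t)
        rw [show 2 * t + 1 + 1 = 2 * t + 2 by ring] at hc
        nlinarith
      · subst ht
        have h1 := h.domr (t + 1)
        rw [show 2 * (t + 1) + 1 = 2 * t + 1 + 1 + 1 by ring,
          show 2 * (t + 1) = 2 * t + 1 + 1 by ring] at h1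
        linarith [h.pos (2 * t + 1)]
    unfold E
    rw [show s + 1 - 1 = s by ring]
    linarith [h.pos (s - 1), h.pos s, h.pos (s + 1)]
  -- bounds for the odd places
  have hOP : ∀ s, O (k + 1) w s ≤ P (k + 2) := fun s =>
    max_le (hA s) ((min_le_left _ _).trans l1')
  have hOl : ∀ s, O (k + 1) w s ≤ E w s := fun s =>
    max_le (hAl s) ((min_le_right _ _).trans (min_le_left _ _))
  have hOr : ∀ s, O (k + 1) w s ≤ E w (s + 1) := fun s =>
    max_le (hAr s) ((min_le_right _ _).trans (min_le_right _ _))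
  have hOpos : ∀ s, 0 < O (k + 1) w s := fun s =>
    lt_of_lt_of_le (by linarith [h.pos s, h.pos (s + 1)]) (le_max_left _ _)
  have hOcase : ∀ s, O (k + 1) w s = w s + w (s + 1) ∨ O (k + 1) w s ≤ S (k + 2) := by
    intro s
    unfold O
    rcases max_choice (w s + w (s + 1)) (min (S (k + 1 + 1) : ℝ) (min (E w s) (E w (s + 1))))
      with h1 | h1
    · left; exact h1
    · right; rw [h1]; exact min_le_left _ _
  -- the condition at the odd places
  have hC : ∀ s, E w s * E w (s + 1) ≤ O (k + 1) w s * (O (k + 1) w s + E w s) ∧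
      E w s * E w (s + 1) ≤ O (k + 1) w s * (O (k + 1) w s + E w (s + 1)) := by
    intro s
    have hm : min (S (k + 2) : ℝ) (min (E w s) (E w (s + 1))) ≤ O (k + 1) w s := le_max_right _ _
    set x := E w s with hx
    set y := E w (s + 1) with hy
    set m := O (k + 1) w s with hmm
    have px : 0 < x := hpos s
    have py : 0 < y := hpos (s + 1)
    have pm : 0 < m := hOpos s
    have hxy1 : x ≤ 2 * y := hrat1 s
    have hxy2 : y ≤ 2 * x := hrat2 s
    have hxQ : x ≤ Q (k + 2) := hEQ s
    have hyQ : y ≤ Q (k + 2) := hEQ (s + 1)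
    have hxyS : x + y ≤ Q (k + 2) + R (k + 2) := hEE s
    have hkey : (Q (k + 2) : ℝ) * R (k + 2) ≤ S (k + 2) * (S (k + 2) + R (k + 2)) := by
      exact_mod_cast key (k + 1)
    -- reduction to the smaller one
    have hsmall : ∀ x y : ℝ, 0 < x → x ≤ y → y ≤ Q (k + 2) → x + y ≤ Q (k + 2) + R (k + 2) →
        x * y ≤ S (k + 2) * (S (k + 2) + x) := by
      intro x y hx hxy hy hs
      by_cases hxR : x ≤ R (k + 2)
      · have h1 : x * y ≤ x * Q (k + 2) := mul_le_mul_of_nonneg_left hy hx.le
        nlinarith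
      · push Not at hxR
        have h1 : x * y ≤ x * (Q (k + 2) + R (k + 2) - x) :=
          mul_le_mul_of_nonneg_left (by linarith) hx.le
        nlinarith [mul_nonneg (sub_nonneg.mpr hxR.le)
          (show (0 : ℝ) ≤ S (k + 2) - Q (k + 2) + x by linarith)]
    have hgen : ∀ x y : ℝ, 0 < x → x ≤ y → y ≤ 2 * x → y ≤ Q (k + 2) →
        x + y ≤ Q (k + 2) + R (k + 2) → min (S (k + 2) : ℝ) x ≤ m → x * y ≤ m * (m + x) := by
      intro x y hx hxy hy2 hy hs hmin
      rcases le_total (S (k + 2) : ℝ) x with hc | hc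
      · rw [min_eq_left hc] at hmin
        have h1 := hsmall x y hx hxy hy hs
        have h2 : (S (k + 2) : ℝ) * (S (k + 2) + x) ≤ m * (m + x) :=
          mul_le_mul hmin (by linarith) (by linarith) pm.le
        linarith
      · rw [min_eq_right hc] at hmin
        nlinarith
    rcases le_total x y with hc | hc
    · rw [min_eq_left hc] at hm
      have h1 := hgen x y px hc hxy2 hyQ hxyS hm
      refine ⟨h1, h1.trans ?_⟩
      exact mul_le_mul_of_nonneg_left (by linarith) pm.le
    · rw [min_eq_right hc] at hm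
      have h1 := hgen y x py hc hxy1 hxQ (by linarith) hm
      rw [mul_comm y x] at h1
      refine ⟨h1.trans ?_, h1⟩
      exact mul_le_mul_of_nonneg_left (by linarith) pm.le
  -- the three sum at an even place
  have hT : ∀ s, O (k + 1) w (s - 1) + E w s + O (k + 1) w s ≤ R (k + 2 + 1) := by
    intro s
    rw [sR2]
    rcases hOcase (s - 1) with h1 | h1
    · rcases hOcase s with h2 | h2
      · rw [h1, h2, show s - 1 + 1 = s by ring]
        unfold E
        rcases Int.even_or_odd' s with ⟨t, ht | ht⟩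
        · subst ht
          have h3 := hE0 t
          unfold E at h3
          have h4 := h.all (2 * t)
          rw [sP, sQ, sS]
          rw [sR] at h3
          linarith
        · subst ht
          have h3 := h.pair t
          have h4 := h.odd t
          rw [show 2 * t + 1 - 1 = 2 * t by ring, show 2 * t + 1 + 1 = 2 * t + 2 by ring]
          rw [sP, sQ, sS]
          linarith
      · linarith [hOP (s - 1), hEQ s]
    · linarith [hOP s, hEQ s]
  refine ⟨?_, ?_, ?_, ?_, ?_, ?_, ?_, ?_, ?_⟩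
  · intro z
    rcases Int.even_or_odd' z with ⟨s, hs | hs⟩
    · subst hs; rw [next_even]; exact hpos s
    · subst hs; rw [next_odd]; exact hOpos s
  · intro z
    rcases Int.even_or_odd' z with ⟨s, hs | hs⟩
    · subst hs; rw [next_even]; exact hEQ s
    · subst hs; rw [next_odd]; exact (hOP s).trans (l2'.trans l3')
  · intro z
    rw [next_odd]; exact hOP z
  · intro z
    rw [show 2 * z + 2 = 2 * (z + 1) by ring, next_even, next_even]
    exact hEE z
  · intro z
    rw [show 2 * z - 1 = 2 * (z - 1) + 1 by ring, next_even, next_odd, next_odd]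
    exact hT z
  · intro z
    rw [next_even, next_odd]; exact hOl z
  · intro z
    rw [show 2 * z - 1 = 2 * (z - 1) + 1 by ring, next_even, next_odd]
    have := hOr (z - 1)
    rwa [show z - 1 + 1 = z by ring] at this
  · intro z
    rw [show 2 * z + 2 = 2 * (z + 1) by ring, next_even, next_even, next_odd]
    exact (hC z).1
  · intro z
    rw [show 2 * z + 2 = 2 * (z + 1) by ring, next_even, next_even, next_odd]
    exact (hC z).2

end Pool.Agent.Helper77.SI
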